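import Pool.Agent.N957.NH.Stm
import Mathlib.Analysis.Matrix.HermitianFunctionalCalculus

/-!
# Project NH, part PROJ: a projection of the algebra close to a projection close to the algebra
-/

set_option autoImplicit false

namespace Pool.Agent.N957.NH.PROJ

open Matrix Finset
open scoped ComplexOrder
open Pool.Agent.W661.RC Pool.Agent.N303.KQ Pool.Agent.W683.RC

noncomputable section

/-- spectral data of a Hermitian matrix -/
theorem spec {n : Type} [Fintype n] [DecidableEq n] (B : Matrix n n ℂ) (hB : Bᴴ = B) :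
    ∃ χ g h : Matrix n n ℂ, χᴴ = χ ∧ gᴴ = g ∧ hᴴ = h ∧ χ * χ = χ ∧ χ * g = g ∧ χ * h = 0 ∧
      g * g - h * h = B ∧
      ∀ D : Matrix n n ℂ, Commute B D → Commute χ D ∧ Commute g D ∧ Commute h D := by
  have hfin : (spectrum ℝ B).Finite := Matrix.finite_real_spectrum
  have hc : ∀ f : ℝ → ℝ, ContinuousOn f (spectrum ℝ B) := fun f => hfin.continuousOn f
  have hsa : IsSelfAdjoint B := hB
  let χf : ℝ → ℝ := fun x => if 0 < x then 1 else 0
  let gf : ℝ → ℝ := fun x => √(max x 0)
  let hf : ℝ → ℝ := fun x => √(max (-x) 0)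
  refine ⟨cfc χf B, cfc gf B, cfc hf B, ?_, ?_, ?_, ?_, ?_, ?_, ?_, ?_⟩
  · exact (cfc_predicate χf B : IsSelfAdjoint _)
  · exact (cfc_predicate gf B : IsSelfAdjoint _)
  · exact (cfc_predicate hf B : IsSelfAdjoint _)
  · rw [← cfc_mul χf χf B (hc _) (hc _)]
    congr 1
    funext x
    simp only [χf]
    split_ifs <;> simp
  · rw [← cfc_mul χf gf B (hc _) (hc _)]
    congr 1
    funext x
    simp only [χf, gf]
    split_ifs with h
    · simp
    · rw [max_eq_right (not_lt.1 h)]; simp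
  · rw [← cfc_mul χf hf B (hc _) (hc _)]
    have : (fun x => χf x * hf x) = fun _ : ℝ => (0 : ℝ) := by
      funext x
      simp only [χf, hf]
      split_ifs with h
      · rw [max_eq_right (by linarith)]; simp
      · simp
    rw [this]
    exact cfc_const_zero ℝ B
  · rw [← cfc_mul gf gf B (hc _) (hc _), ← cfc_mul hf hf B (hc _) (hc _),
      ← cfc_sub (fun x => gf x * gf x) (fun x => hf x * hf x) B (hc _) (hc _)]
    have : (fun x => gf x * gf x - hf x * hf x) = fun x : ℝ => x := by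
      funext x
      simp only [gf, hf]
      rw [Real.mul_self_sqrt (le_max_right _ _), Real.mul_self_sqrt (le_max_right _ _)]
      rcases le_total 0 x with h | h
      · rw [max_eq_left h, max_eq_right (by linarith)]; ring
      · rw [max_eq_right h, max_eq_left (by linarith)]; ring
    rw [this]
    exact cfc_id' ℝ B
  · intro D hD
    exact ⟨hD.cfc_real _, hD.cfc_real _, hD.cfc_real _⟩

variable {d : ℕ} {O : Out d}

/-- the diagonal projection of a block -/
def Dk (O : Out d) (κ : O.K) : Matrix O.I O.I ℂ := diagonal fun i => if O.c i = κ then 1 else 0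

theorem BD_iff {α : Matrix O.I O.I ℂ} : BD O α ↔ ∀ κ, Commute α (Dk O κ) := by
  constructor
  · intro h κ
    ext i j
    rw [Dk, mul_diagonal, diagonal_mul]
    by_cases hij : O.c i = O.c j
    · rw [hij]; ring
    · rw [h i j hij]; ring
  · intro h i j hij
    have h1 := congrFun (congrFun (h (O.c j)) i) j
    rw [Dk, mul_diagonal, diagonal_mul, if_pos rfl, if_neg hij] at h1
    simpa using h1

theorem Am_one : Am O 1 = pO O := by
  rw [Am, Bm_one, Matrix.mul_one, pO]

theorem hs_half (x : Mt d) (e : Mt d) (he : eᴴ = e) :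
    hs (e - ((1 / 2 : ℝ) : ℂ) • (x + xᴴ)) ≤ hs (e - x) := by
  have h1 : e - ((1 / 2 : ℝ) : ℂ) • (x + xᴴ) = ((1 / 2 : ℝ) : ℂ) • ((e - x) + (e - x)ᴴ) := by
    rw [conjTranspose_sub, he, smul_add, smul_add, smul_sub, smul_sub]
    have h2 : e = ((1 / 2 : ℝ) : ℂ) • e + ((1 / 2 : ℝ) : ℂ) • e := by
      rw [← add_smul, ← Complex.ofReal_add]
      norm_num
    nth_rewrite 1 [h2]
    abel
  rw [h1, hs_smul_real]
  have h3 := hs_add_le (e - x) ((e - x)ᴴ)
  rw [Pool.Agent.W683.RC.hs_conjTranspose] at h3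
  linarith [hs_nonneg (e - x)]

theorem hs_sub_pr {y e : Mt d} (hy : yᴴ = y) (he : IsPr e) :
    hs (y - e) = hs y - tr (((2 : ℝ) : ℂ) • (y * e) - e) := by
  rw [hs_eq_tr, hs_eq_tr y, conjTranspose_sub, hy, he.1, Matrix.sub_mul, Matrix.mul_sub,
    Matrix.mul_sub, he.2, tr_sub, tr_sub, tr_sub, tr_sub, tr_smul, tr_mul_comm e y]
  ring

theorem main (y e : Mt d) (hy : y ∈ O.alg) (he : IsPr e) :
    ∃ p ∈ O.alg, IsPr p ∧ hs (e - p) ≤ 4 * hs (e - y) := by
  obtain ⟨β0, hβ0, rfl⟩ := mem_alg.1 hy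
  set β : Matrix O.I O.I ℂ := ((1 / 2 : ℝ) : ℂ) • (β0 + β0ᴴ) with hβd
  have hβh : βᴴ = β := by
    rw [hβd, conjTranspose_smul, conjTranspose_add, conjTranspose_conjTranspose, add_comm]
    congr 1
    exact Complex.conj_ofReal _
  have hβ : BD O β := by
    intro i j hij
    rw [hβd, Matrix.smul_apply, Matrix.add_apply, hβ0 i j hij, hβ0.conjTranspose i j hij]
    simp
  have hy1 : hs (e - Am O β) ≤ hs (e - Am O β0) := by
    rw [hβd, Am_smul, Am_add, ← Am_conjTranspose]
    exact hs_half _ _ he.1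
  set B : Matrix O.I O.I ℂ := ((2 : ℝ) : ℂ) • β - 1 with hBd
  have hBh : Bᴴ = B := by
    rw [hBd, conjTranspose_sub, conjTranspose_smul, hβh, conjTranspose_one]
    congr 2
    exact Complex.conj_ofReal _
  obtain ⟨χ, g, h, hχ, hg, hh, hχχ, hχg, hχh, hgh, hcom⟩ := spec B hBh
  have hBc : ∀ κ, Commute B (Dk O κ) := fun κ => by
    rw [hBd]
    exact ((BD_iff.1 hβ κ).smul_left _).sub_left (Commute.one_left _)
  have hχb : BD O χ := BD_iff.2 fun κ => (hcom _ (hBc κ)).1
  have hgb : BD O g := BD_iff.2 fun κ => (hcom _ (hBc κ)).2.1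
  have hhb : BD O h := BD_iff.2 fun κ => (hcom _ (hBc κ)).2.2
  set P := Am O χ with hPd
  set G := Am O g with hGd
  set H := Am O h with hHd
  have hP : IsPr P := ⟨by rw [hPd, Am_conjTranspose, hχ], by rw [hPd, Am_mul hχb, hχχ]⟩
  have hGG : Gᴴ = G := by rw [hGd, Am_conjTranspose, hg]
  have hHH : Hᴴ = H := by rw [hHd, Am_conjTranspose, hh]
  have hPG : P * G = G := by rw [hPd, hGd, Am_mul hχb, hχg]
  have hPH : P * H = 0 := by
    rw [hPd, hHd, Am_mul hχb, hχh, Am, Bm_zero, Matrix.mul_zero, Matrix.zero_mul]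
  have hyG : ((2 : ℝ) : ℂ) • Am O β - 1 = G * G - H * H - (1 - pO O) := by
    have h1 : ((2 : ℝ) : ℂ) • Am O β = Am O B + pO O := by
      rw [← Am_one, ← Am_add, ← Am_smul, hBd, sub_add_cancel]
    have h2 : Am O B = G * G - H * H := by
      rw [← hgh, hGd, hHd, Am_mul hgb, Am_mul hhb, sub_eq_add_neg, Am_add, sub_eq_add_neg]
      congr 1
      have := Am_smul (O := O) (-1) (h * h)
      simpa using this
    rw [h1, h2]
    abel
  have hyh : (Am O β)ᴴ = Am O β := by rw [Am_conjTranspose, hβh]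
  have key : ∀ z : Mt d, tr (((2 : ℝ) : ℂ) • (Am O β * z) - z) =
      tr (G * G * z) - tr (H * H * z) - tr ((1 - pO O) * z) := by
    intro z
    rw [← tr_sub, ← tr_sub, ← Matrix.sub_mul, ← Matrix.sub_mul, ← hyG, Matrix.sub_mul,
      Matrix.one_mul, Matrix.smul_mul]
  have hGp : (G * G).PosSemidef := by
    have := posSemidef_conjTranspose_mul_self G
    rwa [hGG] at this
  have hHp : (H * H).PosSemidef := by
    have := posSemidef_conjTranspose_mul_self H
    rwa [hHH] at this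
  have hOp : (1 - pO O).PosSemidef := pr_psd (pr_compl pO_pr)
  have hep : e.PosSemidef := pr_psd he
  have hle : tr (((2 : ℝ) : ℂ) • (Am O β * e) - e) ≤ tr (((2 : ℝ) : ℂ) • (Am O β * P) - P) := by
    rw [key, key]
    have h1 : tr (G * G * e) ≤ tr (G * G) := by
      have h2 := tr_mul_nonneg hGp (pr_psd (pr_compl he))
      rw [Matrix.mul_sub, Matrix.mul_one, tr_sub] at h2
      linarith
    have h2 : tr (G * G * P) = tr (G * G) := by
      rw [tr_mul_comm, ← Matrix.mul_assoc, hPG]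
    have h3 : 0 ≤ tr (H * H * e) := tr_mul_nonneg hHp hep
    have h4 : tr (H * H * P) = 0 := by
      rw [tr_mul_comm, ← Matrix.mul_assoc, hPH, Matrix.zero_mul, tr_zero]
    have h5 : 0 ≤ tr ((1 - pO O) * e) := tr_mul_nonneg hOp hep
    have h6 : tr ((1 - pO O) * P) = 0 := by
      rw [Matrix.sub_mul, Matrix.one_mul, pO_mul_alg (Am_mem hχb), sub_self, tr_zero]
    linarith
  refine ⟨P, Am_mem hχb, hP, ?_⟩
  have h7 := hs_sub_pr hyh he
  have h8 := hs_sub_pr hyh hP
  have h9 : hs (Am O β - P) ≤ hs (Am O β - e) := by linarith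
  have h10 : e - P = (e - Am O β) + (Am O β - P) := by abel
  have h11 := hs_add_le (e - Am O β) (Am O β - P)
  rw [← h10] at h11
  rw [hs_sub_comm (Am O β) e] at h9
  linarith

end

end Pool.Agent.N957.NH.PROJ

namespace Pool.Agent.N957.NH

theorem PROJ : S_PROJ := fun _ _ y e hy he => Pool.Agent.N957.NH.PROJ.main y e hy he

end Pool.Agent.N957.NH
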