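import Pool.Agent.N957.NH.Stm

/-!
# Random signs
-/

set_option autoImplicit false

namespace Pool.Agent.N957.NH

open Matrix Finset
open scoped ComplexOrder
open Pool.Agent.W661.RC Pool.Agent.N303.KQ

noncomputable section

namespace AVG

variable {d : ℕ} {O : Out d}

/-- signs with the identical permutation -/
def om (ε : O.I → Bool) : Om O := (ε, ⟨1, fun _ => rfl⟩)

theorem vv_om (ε : O.I → Bool) : vv O (om ε) = ∑ i, sg (ε i) • pr O i := by
  have h : av O (om ε) = ∑ i, sg (ε i) • eu O i i := by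
    ext a b
    rw [Matrix.sum_apply]
    have h0 : av O (om ε) a b = if a = b then sg (ε a) else 0 := rfl
    rw [h0]
    simp only [eu, Matrix.smul_apply, smul_eq_mul]
    rw [sum_eq_single a]
    · by_cases h : a = b
      · simp [h]
      · rw [if_neg h, if_neg (fun h2 => h h2.2.symm), mul_zero]
    · intro c _ hc
      rw [if_neg (fun h2 => hc h2.1.symm), mul_zero]
    · intro h; exact absurd (mem_univ _) h
  rw [vv, h, Am_sum]
  refine sum_congr rfl fun i _ => ?_
  rw [Am_smul]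
  rfl

theorem sum_scalar (z : O.I → ℂ) : ∑ ε : O.I → Bool, ‖∑ i, sg (ε i) * z i‖ ^ 2 =
    (Fintype.card (O.I → Bool) : ℝ) * ∑ i, ‖z i‖ ^ 2 := by
  have h1 : ((∑ ε : O.I → Bool, ‖∑ i, sg (ε i) * z i‖ ^ 2 : ℝ) : ℂ) =
      (((Fintype.card (O.I → Bool) : ℝ) * ∑ i, ‖z i‖ ^ 2 : ℝ) : ℂ) := by
    push_cast
    have h2 : ∀ ε : O.I → Bool, ((‖∑ i, sg (ε i) * z i‖ : ℝ) : ℂ) ^ 2 =
        ∑ i, ∑ i', z i * star (z i') * (sg (ε i) * sg (ε i')) := by
      intro ε
      rw [← Complex.mul_conj', map_sum, Finset.sum_mul_sum]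
      refine sum_congr rfl fun i _ => sum_congr rfl fun i' _ => ?_
      rw [map_mul]
      have h3 : (starRingEnd ℂ) (sg (ε i')) = sg (ε i') := star_sg _
      rw [h3]
      show _ = z i * (starRingEnd ℂ) (z i') * (sg (ε i) * sg (ε i'))
      ring
    simp only [h2]
    rw [sum_comm, mul_sum]
    refine sum_congr rfl fun i _ => ?_
    rw [sum_comm, sum_eq_single i]
    · simp only [sg_mul_self, mul_one, sum_const, card_univ, nsmul_eq_mul]
      rw [← Complex.mul_conj']
      rfl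
    · intro i' _ hi
      rw [← mul_sum, sum_sign _ _ (Ne.symm hi), mul_zero]
    · intro h; exact absurd (mem_univ _) h
  exact_mod_cast h1

theorem sum_hs_sg (y : O.I → Mt d) : ∑ ε : O.I → Bool, hs (∑ i, sg (ε i) • y i) =
    (Fintype.card (O.I → Bool) : ℝ) * ∑ i, hs (y i) := by
  simp only [hs]
  rw [sum_comm]
  have h : ∑ i, ∑ a, ∑ b, ‖y i a b‖ ^ 2 = ∑ a, ∑ b, ∑ i, ‖y i a b‖ ^ 2 := by
    rw [sum_comm]
    exact sum_congr rfl fun a _ => sum_comm
  rw [h, mul_sum]
  refine sum_congr rfl fun a _ => ?_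
  rw [sum_comm, mul_sum]
  refine sum_congr rfl fun b _ => ?_
  rw [← sum_scalar]
  refine sum_congr rfl fun ε _ => ?_
  rw [Matrix.sum_apply]
  rfl

end AVG

theorem AVG : S_AVG := by
  intro d O T c h
  have h1 : ∀ ε : O.I → Bool, hs (∑ i, sg (ε i) • T (pr O i)) ≤ c := by
    intro ε
    have h2 := h (vv O (AVG.om ε)) (vv_mem _) (vv_contr _)
    rw [AVG.vv_om, map_sum] at h2
    simpa only [map_smul] using h2
  have h3 : ∑ ε : O.I → Bool, hs (∑ i, sg (ε i) • T (pr O i)) ≤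
      (Fintype.card (O.I → Bool) : ℝ) * c := by
    refine (sum_le_sum fun ε _ => h1 ε).trans (le_of_eq ?_)
    rw [sum_const, card_univ, nsmul_eq_mul]
  rw [AVG.sum_hs_sg] at h3
  have h4 : (0 : ℝ) < Fintype.card (O.I → Bool) := by
    exact_mod_cast Fintype.card_pos
  exact le_of_mul_le_mul_left h3 h4

end

end Pool.Agent.N957.NH
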