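import Pool.Agent.N957.NH.Stm

/-!
# Project NH (helper957), task CONC (helper645): concentration of the block sizes
-/

set_option autoImplicit false

namespace Pool.Agent.N957.NH.CONC

open Matrix Finset
open scoped ComplexOrder
open Pool.Agent.W661.RC Pool.Agent.W683.RC Pool.Agent.N303.KQ

noncomputable section

/-! ### The real variable part -/

/-- the cut-off function -/
def ph (a m0 : ℝ) (t : ℝ) : ℝ := max 0 (min 1 ((t - a) / (m0 / 10)))

lemma ph_adm {a m0 : ℝ} (hm : 0 < m0) (ha : a ≤ m0) : Adm 20 (ph a m0) := by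
  refine ⟨?_, fun r => le_max_left _ _, fun r => max_le zero_le_one (min_le_left _ _), ?_⟩
  · intro r t hrt
    unfold ph
    gcongr
  · intro r t hr hrt
    have h0 : 0 ≤ 20 * (t - r) / r := by
      apply div_nonneg _ hr.le
      linarith
    by_cases h : a + m0 / 10 ≤ r
    · have h1 : ph a m0 r = 1 := by
        unfold ph
        have : 1 ≤ (r - a) / (m0 / 10) := by
          rw [le_div_iff₀ (by positivity)]
          linarith
        rw [min_eq_left this]
        exact max_eq_right zero_le_one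
      have h2 : ph a m0 t ≤ 1 := max_le zero_le_one (min_le_left _ _)
      linarith
    · push Not at h
      have h1 : ph a m0 t ≤ ph a m0 r + (t - r) / (m0 / 10) := by
        unfold ph
        have h2 : 0 ≤ (t - r) / (m0 / 10) := by
          apply div_nonneg _ (by positivity)
          linarith
        have h3 : (t - a) / (m0 / 10) = (r - a) / (m0 / 10) + (t - r) / (m0 / 10) := by ring
        apply max_le
        · have := le_max_left 0 (min 1 ((r - a) / (m0 / 10)))
          linarith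
        · rcases le_total 1 ((r - a) / (m0 / 10)) with h4 | h4
          · have h5 := le_max_right 0 (min 1 ((r - a) / (m0 / 10)))
            rw [min_eq_left h4] at h5 ⊢
            have h6 := min_le_left 1 ((t - a) / (m0 / 10))
            linarith
          · have h5 := le_max_right 0 (min 1 ((r - a) / (m0 / 10)))
            rw [min_eq_right h4] at h5 ⊢
            have h6 := min_le_right 1 ((t - a) / (m0 / 10))
            linarith
      have h2 : (t - r) / (m0 / 10) ≤ 20 * (t - r) / r := by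
        rw [div_le_div_iff₀ (by positivity) hr]
        have h3 : r ≤ 20 * (m0 / 10) := by linarith
        calc (t - r) * r ≤ (t - r) * (20 * (m0 / 10)) := mul_le_mul_of_nonneg_left h3 (by linarith)
          _ = _ := by ring
      linarith

variable {I : Type} [Fintype I]

/-- weighted median -/
lemma median (r : I → ℝ) (hr : ∀ i, 0 ≤ r i) (hD : 0 < ∑ i, r i) :
    ∃ m0 : ℝ, 0 < m0 ∧ (∑ i, r i) / 2 ≤ ∑ i, (if r i ≤ m0 then r i else 0) ∧
      (∑ i, r i) / 2 ≤ ∑ i, (if m0 ≤ r i then r i else 0) := by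
  classical
  set D := ∑ i, r i with hDd
  set T : Finset I := univ.filter (fun j => D / 2 ≤ ∑ i, (if r i ≤ r j then r i else 0)) with hT
  have hne : (univ : Finset I).Nonempty := by
    rw [univ_nonempty_iff]
    by_contra h
    rw [not_nonempty_iff] at h
    rw [hDd, Fintype.sum_empty] at hD
    exact lt_irrefl _ hD
  have hTne : T.Nonempty := by
    obtain ⟨j, _, hj⟩ := (univ : Finset I).exists_max_image r hne
    refine ⟨j, mem_filter.2 ⟨mem_univ _, ?_⟩⟩
    have h1 : ∑ i, (if r i ≤ r j then r i else 0) = D :=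
      sum_congr rfl fun i _ => if_pos (hj i (mem_univ _))
    rw [h1]
    linarith
  obtain ⟨j0, hj0, hmin⟩ := T.exists_min_image r hTne
  have hj0' := (mem_filter.1 hj0).2
  refine ⟨r j0, ?_, hj0', ?_⟩
  · rcases (hr j0).lt_or_eq with h | h
    · exact h
    · exfalso
      rw [← h] at hj0'
      have h1 : ∑ i, (if r i ≤ 0 then r i else 0) = 0 := by
        refine sum_eq_zero fun i _ => ?_
        split_ifs with h2
        · exact le_antisymm h2 (hr i)
        · rfl
      rw [h1] at hj0'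
      linarith
  · by_contra hlt
    push Not at hlt
    have h1 : ∑ i, (if r i < r j0 then r i else 0) + ∑ i, (if r j0 ≤ r i then r i else 0) = D := by
      rw [← sum_add_distrib]
      refine sum_congr rfl fun i _ => ?_
      rcases lt_or_ge (r i) (r j0) with h | h
      · rw [if_pos h, if_neg (not_le.2 h), add_zero]
      · rw [if_neg (not_lt.2 h), if_pos h, zero_add]
    have h2 : D / 2 < ∑ i, (if r i < r j0 then r i else 0) := by linarith
    have hne2 : ((univ : Finset I).filter (fun i => r i < r j0)).Nonempty := by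
      by_contra hemp
      rw [not_nonempty_iff_eq_empty] at hemp
      have h3 : ∑ i, (if r i < r j0 then r i else 0) = 0 := by
        rw [← sum_filter, hemp, sum_empty]
      linarith
    obtain ⟨j1, hj1, hmax⟩ := exists_max_image _ r hne2
    have hj1' := (mem_filter.1 hj1).2
    have h3 : j1 ∈ T := by
      refine mem_filter.2 ⟨mem_univ _, ?_⟩
      have h4 : ∑ i, (if r i < r j0 then r i else 0) ≤ ∑ i, (if r i ≤ r j1 then r i else 0) := by
        refine sum_le_sum fun i _ => ?_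
        by_cases h5 : r i < r j0
        · rw [if_pos h5, if_pos (hmax i (mem_filter.2 ⟨mem_univ _, h5⟩))]
        · rw [if_neg h5]
          split_ifs
          · exact hr i
          · exact le_rfl
      linarith
    have h4 := hmin j1 h3
    linarith

lemma side (r : I → ℝ) (hr : ∀ i, 0 ≤ r i) {d e1 W : ℝ} (P Q : I → Prop) [DecidablePred P]
    [DecidablePred Q] (z : I → ℂ) (c : ℂ) (m : ℂ) (hW : d / 4 ≤ W)
    (hP : W ≤ ∑ i, (if P i then r i else 0)) (he1 : e1 ≤ 1 / 16) (hd : 0 < d)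
    (hzP : ∀ i, P i → z i = c) (hzQ : ∀ i, Q i → z i = 1 - c) (hc : c = 0 ∨ c = 1)
    (h : ∑ i, ‖z i - m‖ ^ 2 * r i ≤ e1 * d) :
    ∑ i, (if Q i then r i else 0) ≤ 4 * e1 * d := by
  have h1 : ‖c - m‖ ^ 2 * ∑ i, (if P i then r i else 0) ≤ ∑ i, ‖z i - m‖ ^ 2 * r i := by
    rw [mul_sum]
    refine sum_le_sum fun i _ => ?_
    split_ifs with hi
    · rw [hzP i hi]
    · rw [mul_zero]
      exact mul_nonneg (by positivity) (hr i)
  have h2 : ‖c - m‖ ^ 2 * (d / 4) ≤ e1 * d :=
    (mul_le_mul_of_nonneg_left (hW.trans hP) (by positivity)).trans (h1.trans h)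
  have h3 : ‖c - m‖ ^ 2 ≤ 1 / 4 := by
    have h4 : ‖c - m‖ ^ 2 * (d / 4) ≤ 1 / 4 * (d / 4) := by nlinarith
    exact le_of_mul_le_mul_right h4 (by positivity)
  have h4 : ‖c - m‖ ≤ 1 / 2 := by nlinarith [norm_nonneg (c - m)]
  have h5 : 1 ≤ ‖1 - c - m‖ + ‖c - m‖ := by
    have h6 : ‖(1 - c - m) - (c - m)‖ = 1 := by
      rcases hc with rfl | rfl
      · rw [show (1 - 0 - m) - (0 - m) = (1 : ℂ) by ring]
        simp
      · rw [show (1 - 1 - m) - (1 - m) = (-1 : ℂ) by ring]
        simp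
    rw [← h6]
    exact norm_sub_le _ _
  have h6 : 1 / 2 ≤ ‖1 - c - m‖ := by linarith
  have h7 : 1 / 4 ≤ ‖1 - c - m‖ ^ 2 := by nlinarith
  have h8 : ‖1 - c - m‖ ^ 2 * ∑ i, (if Q i then r i else 0) ≤ ∑ i, ‖z i - m‖ ^ 2 * r i := by
    rw [mul_sum]
    refine sum_le_sum fun i _ => ?_
    split_ifs with hi
    · rw [hzQ i hi]
    · rw [mul_zero]
      exact mul_nonneg (by positivity) (hr i)
  have h9 : 0 ≤ ∑ i, (if Q i then r i else 0) := by
    refine sum_nonneg fun i _ => ?_
    split_ifs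
    · exact hr i
    · exact le_rfl
  nlinarith

lemma abstr (r : I → ℝ) (hr : ∀ i, 0 ≤ r i) {d e1 : ℝ} (hd : 0 < d) (hD : d / 2 ≤ ∑ i, r i)
    (he1 : e1 ≤ 1 / 16)
    (h : ∀ φ : ℝ → ℝ, Adm 20 φ → ∃ m : ℂ, ∑ i, ‖((φ (r i) : ℝ) : ℂ) - m‖ ^ 2 * r i ≤ e1 * d) :
    ∃ m0 : ℝ, 0 < m0 ∧
      ∑ i, (if 9 / 10 * m0 ≤ r i ∧ r i ≤ 11 / 10 * m0 then 0 else r i) ≤ 8 * e1 * d := by
  classical
  obtain ⟨m0, hm0, hA, hB⟩ := median r hr (by linarith)
  refine ⟨m0, hm0, ?_⟩
  obtain ⟨m, hm⟩ := h _ (ph_adm (a := m0) hm0 le_rfl)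
  obtain ⟨m', hm'⟩ := h _ (ph_adm (a := 9 / 10 * m0) hm0 (by linarith))
  have hone : ∀ (a t : ℝ), a + m0 / 10 ≤ t → ph a m0 t = 1 := by
    intro a t ht
    unfold ph
    have : 1 ≤ (t - a) / (m0 / 10) := by
      rw [le_div_iff₀ (by positivity)]
      linarith
    rw [min_eq_left this]
    exact max_eq_right zero_le_one
  have hzero : ∀ (a t : ℝ), t ≤ a → ph a m0 t = 0 := by
    intro a t ht
    unfold ph
    have : (t - a) / (m0 / 10) ≤ 0 := div_nonpos_of_nonpos_of_nonneg (by linarith) (by positivity)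
    exact max_eq_left ((min_le_right _ _).trans this)
  have h1 : ∑ i, (if 11 / 10 * m0 < r i then r i else 0) ≤ 4 * e1 * d := by
    refine side r hr (W := (∑ i, r i) / 2) (fun i => r i ≤ m0) (fun i => 11 / 10 * m0 < r i)
      (fun i => ((ph m0 m0 (r i) : ℝ) : ℂ)) 0 m (by linarith) hA he1 hd ?_ ?_ (Or.inl rfl) hm
    · intro i hi
      rw [hzero _ _ hi, Complex.ofReal_zero]
    · intro i hi
      rw [hone _ _ (by linarith), Complex.ofReal_one, sub_zero]
  have h2 : ∑ i, (if r i < 9 / 10 * m0 then r i else 0) ≤ 4 * e1 * d := by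
    refine side r hr (W := (∑ i, r i) / 2) (fun i => m0 ≤ r i) (fun i => r i < 9 / 10 * m0)
      (fun i => ((ph (9 / 10 * m0) m0 (r i) : ℝ) : ℂ)) 1 m' (by linarith) hB he1 hd ?_ ?_
      (Or.inr rfl) hm'
    · intro i hi
      rw [hone _ _ (by linarith), Complex.ofReal_one]
    · intro i hi
      rw [hzero _ _ (by linarith), Complex.ofReal_zero, sub_self]
  have h3 : ∑ i, (if 9 / 10 * m0 ≤ r i ∧ r i ≤ 11 / 10 * m0 then 0 else r i) ≤
      ∑ i, (if 11 / 10 * m0 < r i then r i else 0) +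
        ∑ i, (if r i < 9 / 10 * m0 then r i else 0) := by
    rw [← sum_add_distrib]
    refine sum_le_sum fun i _ => ?_
    have h0 := hr i
    rcases lt_or_ge (11 / 10 * m0) (r i) with a1 | a1
    · rw [if_pos a1, if_neg (fun h => absurd h.2 (not_le.2 a1))]
      have : 0 ≤ (if r i < 9 / 10 * m0 then r i else 0) := by
        split_ifs
        · exact h0
        · exact le_rfl
      linarith
    · rw [if_neg (not_lt.2 a1), zero_add]
      rcases lt_or_ge (r i) (9 / 10 * m0) with a2 | a2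
      · rw [if_pos a2]
        split_ifs
        · exact h0
        · exact le_rfl
      · rw [if_pos ⟨a2, a1⟩, if_neg (not_lt.2 a2)]
  linarith

/-! ### The matrix part -/

variable {d : ℕ} {O : Out d}

lemma hs_pr (i : O.I) : hs (pr O i) = rk O i := by
  have h1 := ip_self (pr O i)
  unfold pr at h1
  rw [ip_Am _ _ (BD_eu rfl)] at h1
  have h2 : ∑ a, ∑ b, star (eu O i i b a) * eu O i i b a * (O.l (O.c a) : ℂ) = (O.l (O.c i) : ℂ) := by
    rw [sum_eq_single i]
    · rw [sum_eq_single i]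
      · simp [eu]
      · intro b _ hb
        simp [eu, hb]
      · intro h3
        exact absurd (mem_univ _) h3
    · intro a _ ha
      refine sum_eq_zero fun b _ => ?_
      simp [eu, ha]
    · intro h3
      exact absurd (mem_univ _) h3
  rw [h2] at h1
  unfold rk pr
  have h3 := congrArg Complex.re h1
  rw [Complex.ofReal_re] at h3
  rw [← h3]
  simp

lemma pr_mul_pr (i j : O.I) : pr O i * pr O j = if i = j then pr O i else 0 := by
  by_cases h : i = j
  · subst h
    rw [if_pos rfl]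
    exact (pr_isPr i).2
  · rw [if_neg h, pr, pr, Am_mul (BD_eu rfl)]
    have h1 : eu O i i * eu O j j = 0 := by
      ext a b
      rw [Matrix.mul_apply]
      simp only [eu]
      refine sum_eq_zero fun c _ => ?_
      by_cases h2 : a = i ∧ c = i
      · rw [if_neg (c := c = j ∧ b = j), mul_zero]
        rintro ⟨h3, _⟩
        exact h (by rw [← h2.2, h3])
      · rw [if_neg h2, zero_mul]
    rw [h1, Am, Bm_zero]
    simp

lemma pr_mul_fc (φ : ℝ → ℝ) (i : O.I) : pr O i * fc O φ = ((φ (rk O i) : ℝ) : ℂ) • pr O i := by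
  unfold fc
  rw [Matrix.mul_sum, sum_eq_single i]
  · rw [Matrix.mul_smul, pr_mul_pr, if_pos rfl]
  · intro j _ hj
    rw [Matrix.mul_smul, pr_mul_pr, if_neg (Ne.symm hj), smul_zero]
  · intro h
    exact absurd (mem_univ _) h

lemma fc_contr {φ : ℝ → ℝ} (h0 : ∀ r, 0 ≤ φ r) (h1 : ∀ r, φ r ≤ 1) :
    Le ((fc O φ)ᴴ * fc O φ) 1 := by
  have e1 : (fc O φ)ᴴ = fc O φ := by
    unfold fc
    rw [Matrix.conjTranspose_sum]
    refine sum_congr rfl fun i _ => ?_
    rw [Matrix.conjTranspose_smul, (pr_isPr i).1]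
    congr 1
    exact Complex.conj_ofReal _
  have e2 : (fc O φ)ᴴ * fc O φ = ∑ i, ((φ (rk O i) * φ (rk O i) : ℝ) : ℂ) • pr O i := by
    rw [e1]
    have e3 : fc O φ * fc O φ = (∑ i, ((φ (rk O i) : ℝ) : ℂ) • pr O i) * fc O φ := rfl
    rw [e3, Matrix.sum_mul]
    refine sum_congr rfl fun i _ => ?_
    rw [Matrix.smul_mul, pr_mul_fc, smul_smul, Complex.ofReal_mul]
  rw [e2]
  have h2 : Le (∑ i, ((φ (rk O i) * φ (rk O i) : ℝ) : ℂ) • pr O i) (∑ i, pr O i) := by
    apply Le_sum
    intro i _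
    have h3 := Le_smul_right (pr_psd (pr_isPr i)) (c := φ (rk O i) * φ (rk O i)) (c' := 1)
      (mul_le_one₀ (h1 _) (h0 _) (h1 _))
    rwa [Complex.ofReal_one, one_smul] at h3
  refine Le_trans h2 ?_
  rw [sum_pr]
  exact pr_le_one pO_pr

lemma key (φ : ℝ → ℝ) (m : ℂ) :
    ∑ i, ‖((φ (rk O i) : ℝ) : ℂ) - m‖ ^ 2 * rk O i ≤ hs (fc O φ - m • (1 : Mt d)) := by
  refine le_trans (le_of_eq ?_) (sum_hs_pr_mul (O := O) (fc O φ - m • (1 : Mt d)))
  refine sum_congr rfl fun i _ => ?_
  rw [Matrix.mul_sub, pr_mul_fc, Matrix.mul_smul, Matrix.mul_one, ← sub_smul, hs_smul, hs_pr]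

lemma sum_rk : ∑ i, rk O i = D0 O := by
  rw [← sum_hs_pr]
  exact sum_congr rfl fun i _ => (hs_pr i).symm

end

end Pool.Agent.N957.NH.CONC

namespace Pool.Agent.N957.NH

open Matrix Finset
open scoped ComplexOrder
open Pool.Agent.W661.RC Pool.Agent.W683.RC Pool.Agent.N303.KQ

/-- CONC -/
theorem CONC : S_CONC := by
  intro C2 κ hC2 hκ
  have hC : 0 < C2 + 1 := by linarith
  set ε : ℝ := min (1 / 2) (min (1 / (16 * (C2 + 1))) (κ / (8 * (C2 + 1)))) with hε
  have hε0 : 0 < ε := by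
    apply lt_min (by norm_num)
    apply lt_min <;> positivity
  have hε1 : ε ≤ 1 / 2 := min_le_left _ _
  have hε2 : ε ≤ 1 / (16 * (C2 + 1)) := (min_le_right _ _).trans (min_le_left _ _)
  have hε3 : ε ≤ κ / (8 * (C2 + 1)) := (min_le_right _ _).trans (min_le_right _ _)
  refine ⟨ε, hε0, fun d k u O hd hirr hen hD => ?_⟩
  have hd0 : (0 : ℝ) < d := by exact_mod_cast hd
  set e1 : ℝ := (C2 + 1) * ε with he1
  have he16 : e1 ≤ 1 / 16 := by
    rw [le_div_iff₀ (by positivity)] at hε2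
    rw [he1]
    linarith
  have heκ : 8 * e1 ≤ κ := by
    rw [le_div_iff₀ (by positivity)] at hε3
    rw [he1]
    linarith
  obtain ⟨m0, hm0, hs0⟩ := CONC.abstr (fun i => rk O i) (fun i => Nat.cast_nonneg _) hd0
    (e1 := e1) (by rw [CONC.sum_rk]; nlinarith) he16 (by
      intro φ hφ
      obtain ⟨m, hm⟩ := hirr (fc O φ) (CONC.fc_contr hφ.nn hφ.le)
      refine ⟨m, (CONC.key φ m).trans (hm.trans ?_)⟩
      have h1 := hen φ hφ
      have h2 : C2 * en u (fc O φ) ≤ C2 * (ε * d) := mul_le_mul_of_nonneg_left h1 (by linarith)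
      rw [he1]
      linarith)
  refine ⟨m0, hm0, hs0.trans ?_⟩
  exact mul_le_mul_of_nonneg_right heκ hd0.le

end Pool.Agent.N957.NH
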