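import Pool.Agent.N957.NH.Stm

/-!
# Project NH, part FIN (helper680): two unitaries near the block algebra nearly commute
-/

set_option autoImplicit false

namespace Pool.Agent.N957.NH

open Matrix Finset
open scoped ComplexOrder
open Pool.Agent.W661.RC Pool.Agent.W683.RC Pool.Agent.N303.KQ

noncomputable section

namespace FIN

variable {d : ℕ}

lemma hs_add5_le (x1 x2 x3 x4 x5 : Mt d) :
    hs (x1 + x2 - x3 - x4 + x5) ≤ 5 * (hs x1 + hs x2 + hs x3 + hs x4 + hs x5) := by
  have h := hs_sum_le (Finset.univ : Finset (Fin 5)) ![x1, x2, -x3, -x4, x5]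
  simp only [Fin.sum_univ_five, card_univ, Fintype.card_fin] at h
  have e : (![x1, x2, -x3, -x4, x5] : Fin 5 → Mt d) 0 + (![x1, x2, -x3, -x4, x5] : Fin 5 → Mt d) 1 +
      (![x1, x2, -x3, -x4, x5] : Fin 5 → Mt d) 2 + (![x1, x2, -x3, -x4, x5] : Fin 5 → Mt d) 3 +
      (![x1, x2, -x3, -x4, x5] : Fin 5 → Mt d) 4 = x1 + x2 - x3 - x4 + x5 := by
    show x1 + x2 + -x3 + -x4 + x5 = _
    abel
  rw [e] at h
  refine h.trans (le_of_eq ?_)
  show ((5 : ℕ) : ℝ) * (hs x1 + hs x2 + hs (-x3) + hs (-x4) + hs x5) = _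
  rw [Pool.Agent.W683.RC.hs_neg, Pool.Agent.W683.RC.hs_neg]
  push_cast
  ring

lemma comp_err {W a e g : Mt d} (ha : Le (aᴴ * a) 1) (he : IsPr e) (hg : IsPr g) :
    hs (e * W * e - g * a * g) ≤ 3 * (hs (e * (W - a)) + 2 * hs (e - g)) := by
  have e1 : e * W * e - g * a * g = e * (W - a) * e + (e - g) * a * e + g * a * (e - g) := by
    noncomm_ring
  rw [e1]
  have h1 := hs_add3_le (e * (W - a) * e) ((e - g) * a * e) (g * a * (e - g))
  have h2 : hs (e * (W - a) * e) ≤ hs (e * (W - a)) := hs_mul_pr_le_self he _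
  have h3 : hs ((e - g) * a * e) ≤ hs (e - g) :=
    (hs_mul_pr_le_self he _).trans (hs_mul_le_right ha _)
  have h4 : hs (g * a * (e - g)) ≤ hs (e - g) := by
    rw [Matrix.mul_assoc]
    exact (hs_pr_mul_le_self hg _).trans (hs_mul_le ha _)
  linarith

lemma comm_bound {W0 W1 a0 a1 e g : Mt d} {c0 c1 : ℂ} (hW0 : W0ᴴ * W0 = 1) (hW1 : W1ᴴ * W1 = 1)
    (ha0 : Le (a0ᴴ * a0) 1) (ha1 : Le (a1ᴴ * a1) 1) (he : IsPr e) (hg : IsPr g)
    (h0 : g * a0 * g = c0 • g) (h1 : g * a1 * g = c1 • g) :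
    hs ((W0 * W1 - W1 * W0) * e) ≤ 10 * (hs (W0 * e - e * W0) + hs (W1 * e - e * W1)) +
      120 * (hs (e * (W0 - a0)) + hs (e * (W1 - a1)) + 4 * hs (e - g)) := by
  have key : ∀ {W : Mt d}, hs ((1 - e) * W * e) ≤ hs (W * e - e * W) := by
    intro W
    have e1 : (1 - e) * W * e = (1 - e) * (W * e - e * W) := by
      have h2 : (1 - e) * e = 0 := by rw [Matrix.sub_mul, Matrix.one_mul, he.2, sub_self]
      rw [Matrix.mul_sub, ← Matrix.mul_assoc (1 - e) e W, h2, Matrix.zero_mul, sub_zero,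
        Matrix.mul_assoc]
    rw [e1]
    exact hs_pr_mul_le_self (pr_compl he) _
  set K : Mt d := e * W0 * e * (e * W1 * e) - e * W1 * e * (e * W0 * e) with hK
  have e1 : (W0 * W1 - W1 * W0) * e = W0 * ((1 - e) * W1 * e) + ((1 - e) * W0 * e) * (W1 * e)
      - W1 * ((1 - e) * W0 * e) - ((1 - e) * W1 * e) * (W0 * e) + K := by
    have h2 : e * W0 * e * (e * W1 * e) = e * W0 * (e * e) * W1 * e := by
      simp only [Matrix.mul_assoc]
    have h3 : e * W1 * e * (e * W0 * e) = e * W1 * (e * e) * W0 * e := by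
      simp only [Matrix.mul_assoc]
    rw [hK, h2, h3, he.2]
    noncomm_ring
  have b1 : hs (W0 * ((1 - e) * W1 * e)) ≤ hs (W1 * e - e * W1) := by
    rw [hs_unit_mul hW0]; exact key
  have b2 : hs (((1 - e) * W0 * e) * (W1 * e)) ≤ hs (W0 * e - e * W0) := by
    rw [← Matrix.mul_assoc]
    refine (hs_mul_pr_le_self he _).trans ?_
    rw [hs_mul_unit hW1]; exact key
  have b3 : hs (W1 * ((1 - e) * W0 * e)) ≤ hs (W0 * e - e * W0) := by
    rw [hs_unit_mul hW1]; exact key
  have b4 : hs (((1 - e) * W1 * e) * (W0 * e)) ≤ hs (W1 * e - e * W1) := by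
    rw [← Matrix.mul_assoc]
    refine (hs_mul_pr_le_self he _).trans ?_
    rw [hs_mul_unit hW0]; exact key
  -- the corner
  set E0 : Mt d := e * W0 * e - g * a0 * g with hE0
  set E1 : Mt d := e * W1 * e - g * a1 * g with hE1
  have c1' := comp_err (W := W0) ha0 he hg
  have c2' := comp_err (W := W1) ha1 he hg
  have hKe : K = (e * W0 * e * E1 - E1 * (e * W0 * e)) + (E0 * (g * a1 * g) - g * a1 * g * E0) := by
    have h2 : g * a0 * g * (g * a1 * g) = g * a1 * g * (g * a0 * g) := by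
      rw [h0, h1, Matrix.smul_mul, Matrix.mul_smul, Matrix.smul_mul, Matrix.mul_smul, smul_comm]
    have h3 : g * a0 * g * (g * a1 * g) - g * a1 * g * (g * a0 * g) = 0 := sub_eq_zero.2 h2
    rw [hK, hE0, hE1]
    have h4 : e * W0 * e * (e * W1 * e) - e * W1 * e * (e * W0 * e) =
        (e * W0 * e * (e * W1 * e - g * a1 * g) - (e * W1 * e - g * a1 * g) * (e * W0 * e)) +
        ((e * W0 * e - g * a0 * g) * (g * a1 * g) - g * a1 * g * (e * W0 * e - g * a0 * g)) +
        (g * a0 * g * (g * a1 * g) - g * a1 * g * (g * a0 * g)) := by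
      simp only [Matrix.mul_sub, Matrix.sub_mul]
      abel
    rw [h4, h3, add_zero]
  have k1 : hs (e * W0 * e * E1) ≤ hs E1 := by
    rw [Matrix.mul_assoc, Matrix.mul_assoc]
    refine (hs_pr_mul_le_self he _).trans ?_
    rw [hs_unit_mul hW0]
    exact hs_pr_mul_le_self he _
  have k2 : hs (E1 * (e * W0 * e)) ≤ hs E1 := by
    rw [← Matrix.mul_assoc, ← Matrix.mul_assoc]
    refine (hs_mul_pr_le_self he _).trans ?_
    rw [hs_mul_unit hW0]
    exact hs_mul_pr_le_self he _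
  have k3 : hs (E0 * (g * a1 * g)) ≤ hs E0 := by
    rw [← Matrix.mul_assoc, ← Matrix.mul_assoc]
    refine (hs_mul_pr_le_self hg _).trans ?_
    exact (hs_mul_le_right ha1 _).trans (hs_mul_pr_le_self hg _)
  have k4 : hs (g * a1 * g * E0) ≤ hs E0 := by
    rw [Matrix.mul_assoc, Matrix.mul_assoc]
    refine (hs_pr_mul_le_self hg _).trans ?_
    exact (hs_mul_le ha1 _).trans (hs_pr_mul_le_self hg _)
  have hKb : hs K ≤ 8 * (hs E0 + hs E1) := by
    rw [hKe]
    have h2 := hs_add_le (e * W0 * e * E1 - E1 * (e * W0 * e)) (E0 * (g * a1 * g) - g * a1 * g * E0)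
    have h3 := Pool.Agent.W683.RC.hs_sub_le (e * W0 * e * E1) (E1 * (e * W0 * e))
    have h4 := Pool.Agent.W683.RC.hs_sub_le (E0 * (g * a1 * g)) (g * a1 * g * E0)
    linarith
  have h5 := hs_add5_le (W0 * ((1 - e) * W1 * e)) (((1 - e) * W0 * e) * (W1 * e))
    (W1 * ((1 - e) * W0 * e)) (((1 - e) * W1 * e) * (W0 * e)) K
  rw [e1]
  linarith

/-! ### Sums over the minimal projections -/

variable {O : Out d}

lemma hs_pr_eq (i : O.I) : hs (pr O i) = rk O i := by
  have h1 : ((hs (pr O i) : ℝ) : ℂ) = ((rk O i : ℝ) : ℂ) := by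
    rw [← ip_self, pr, ip_Am _ _ (BD_eu rfl), sum_eq_single i, sum_eq_single i]
    · simp [eu, rk]
    · intro b _ hb
      simp [eu, hb]
    · intro h; exact absurd (mem_univ _) h
    · intro b _ hb
      refine sum_eq_zero fun j _ => ?_
      simp [eu, hb]
    · intro h; exact absurd (mem_univ _) h
  exact_mod_cast h1

lemma rk_nonneg (i : O.I) : 0 ≤ rk O i := Nat.cast_nonneg _

/-- the conjugate projections -/
def ee (O : Out d) (V : Mt d) (i : O.I) : Mt d := V * pr O i * Vᴴ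

lemma ee_pr {V : Mt d} (hV : Vᴴ * V = 1) (i : O.I) : IsPr (ee O V i) := by
  refine ⟨?_, ?_⟩
  · rw [ee, Matrix.conjTranspose_mul, Matrix.conjTranspose_mul, Matrix.conjTranspose_conjTranspose,
      (pr_isPr i).1, Matrix.mul_assoc]
  · rw [ee]
    calc V * pr O i * Vᴴ * (V * pr O i * Vᴴ) = V * pr O i * (Vᴴ * V) * pr O i * Vᴴ := by
          simp only [Matrix.mul_assoc]
      _ = V * (pr O i * pr O i) * Vᴴ := by rw [hV, Matrix.mul_one]; simp only [Matrix.mul_assoc]
      _ = _ := by rw [(pr_isPr i).2]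

lemma sum_ee (V : Mt d) : ∑ i, ee O V i = V * pO O * Vᴴ := by
  simp only [ee]
  rw [← Matrix.sum_mul, ← Matrix.mul_sum, sum_pr]

lemma EE_pr {V : Mt d} (hV : Vᴴ * V = 1) : IsPr (V * pO O * Vᴴ) := by
  refine ⟨?_, ?_⟩
  · rw [Matrix.conjTranspose_mul, Matrix.conjTranspose_mul, Matrix.conjTranspose_conjTranspose,
      pO_pr.1, Matrix.mul_assoc]
  · calc V * pO O * Vᴴ * (V * pO O * Vᴴ) = V * pO O * (Vᴴ * V) * pO O * Vᴴ := by
          simp only [Matrix.mul_assoc]
      _ = V * (pO O * pO O) * Vᴴ := by rw [hV, Matrix.mul_one]; simp only [Matrix.mul_assoc]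
      _ = _ := by rw [pO_pr.2]

lemma sum_hs_mul_ee {V : Mt d} (hV : Vᴴ * V = 1) (x : Mt d) :
    ∑ i, hs (x * ee O V i) = hs (x * (V * pO O * Vᴴ)) := by
  rw [← tr_sq_mul_pr rfl (EE_pr hV), ← sum_ee, Matrix.mul_sum, tr_sum]
  exact sum_congr rfl fun i _ => (tr_sq_mul_pr rfl (ee_pr hV i)).symm

lemma sum_hs_ee_mul_le {V : Mt d} (hV : Vᴴ * V = 1) (x : Mt d) :
    ∑ i, hs (ee O V i * x) ≤ hs x := by
  have h1 : ∀ i, hs (ee O V i * x) = hs (xᴴ * ee O V i) := by
    intro i
    rw [← Pool.Agent.W683.RC.hs_conjTranspose, Matrix.conjTranspose_mul, (ee_pr hV i).1]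
  rw [sum_congr rfl fun i _ => h1 i, sum_hs_mul_ee hV]
  refine (hs_mul_pr_le_self (EE_pr hV) _).trans (le_of_eq ?_)
  exact Pool.Agent.W683.RC.hs_conjTranspose x

lemma hs_compl_EE {V : Mt d} (hV : Vᴴ * V = 1) : hs (1 - V * pO O * Vᴴ) = d - D0 O := by
  rw [← hs_compl]
  have h1 : (1 - V * pO O * Vᴴ : Mt d) = V * (1 - pO O) * Vᴴ := by
    rw [Matrix.mul_sub, Matrix.sub_mul, Matrix.mul_one, unit_symm hV]
  rw [h1, hs_mul_unit (unit_conj hV), hs_unit_mul hV]

lemma hs_ee {V : Mt d} (hV : Vᴴ * V = 1) (i : O.I) : hs (ee O V i) = rk O i := by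
  rw [ee, hs_mul_unit (unit_conj hV), hs_unit_mul hV, hs_pr_eq]

/-! ### Central projections -/

/-- the central projection of a set of classes -/
def zz (O : Out d) (φ : ℝ → Prop) [DecidablePred φ] : Mt d :=
  Am O (diagonal fun i => if φ (rk O i) then 1 else 0)

lemma BD_diag (f : O.I → ℂ) : BD O (diagonal f) := by
  intro i j hij
  exact diagonal_apply_ne _ fun h => hij (by rw [h])

lemma zz_mem (φ : ℝ → Prop) [DecidablePred φ] : zz O φ ∈ O.alg := Am_mem (BD_diag _)

lemma zz_pr (φ : ℝ → Prop) [DecidablePred φ] : IsPr (zz O φ) := by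
  refine ⟨?_, ?_⟩
  · rw [zz, Am_conjTranspose, diagonal_conjTranspose]
    congr 2
    funext i
    rw [Pi.star_apply]
    split_ifs <;> simp
  · rw [zz, Am_mul (BD_diag _), diagonal_mul_diagonal]
    congr 2
    funext i
    split_ifs <;> simp

lemma zz_comm (φ : ℝ → Prop) [DecidablePred φ] {a : Mt d} (ha : a ∈ O.alg) :
    zz O φ * a = a * zz O φ := by
  obtain ⟨α, hα, rfl⟩ := mem_alg.1 ha
  rw [zz, Am_mul (BD_diag _), Am_mul hα]
  congr 1
  ext i j
  rw [diagonal_mul, mul_diagonal]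
  by_cases h : O.c i = O.c j
  · have : rk O i = rk O j := by rw [rk, rk, h]
    rw [this, mul_comm]
  · rw [hα i j h, mul_zero, zero_mul]

lemma zz_add (φ : ℝ → Prop) [DecidablePred φ] : zz O φ + zz O (fun r => ¬ φ r) = pO O := by
  rw [zz, zz, ← Am_add, diagonal_add]
  have h1 : (diagonal fun i : O.I => (if φ (rk O i) then 1 else 0) + if ¬ φ (rk O i) then 1 else 0 :
      Matrix O.I O.I ℂ) = 1 := by
    rw [← diagonal_one]
    congr 1
    funext i
    split_ifs <;> simp_all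
  rw [h1, Am, Bm_one, Matrix.mul_one, pO]

lemma pr_mul_zz (φ : ℝ → Prop) [DecidablePred φ] (i : O.I) (h : ¬ φ (rk O i)) :
    pr O i * zz O φ = 0 := by
  rw [pr, zz, Am_mul (BD_eu rfl)]
  have h1 : eu O i i * (diagonal fun i => if φ (rk O i) then 1 else 0) = 0 := by
    ext a b
    rw [mul_diagonal]
    simp only [eu, Matrix.zero_apply]
    by_cases h2 : a = i ∧ b = i
    · rw [h2.2, if_neg h, mul_zero]
    · rw [if_neg h2, zero_mul]
  rw [h1, Am, Bm_zero]
  simp

lemma hs_zz (φ : ℝ → Prop) [DecidablePred φ] :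
    hs (zz O φ) = ∑ i, if φ (rk O i) then rk O i else 0 := by
  have h1 : ((hs (zz O φ) : ℝ) : ℂ) = ((∑ i, (if φ (rk O i) then rk O i else 0) : ℝ) : ℂ) := by
    rw [← ip_self, zz, ip_Am _ _ (BD_diag _)]
    push_cast
    refine sum_congr rfl fun i _ => ?_
    rw [sum_eq_single i]
    · rw [diagonal_apply_eq]
      split_ifs <;> simp [rk]
    · intro b _ hb
      rw [diagonal_apply_ne _ hb]
      simp
    · intro h; exact absurd (mem_univ _) h
  exact_mod_cast h1

end FIN

open FIN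

theorem FIN (hMIN : S_MIN) : S_FIN := by
  refine ⟨10000, by norm_num, ?_⟩
  intro d O V p W a m0 ε hd hm0 hε hN hW hD ha ha1 hWa hc hr
  have hV := hN.un
  set φ : ℝ → Prop := fun r => 9 / 10 * m0 ≤ r ∧ r ≤ 11 / 10 * m0 with hφ
  set zg : Mt d := zz O φ with hzg
  set zb : Mt d := zz O (fun r => ¬ φ r) with hzb
  have hzgp : IsPr zg := zz_pr φ
  have hzbp : IsPr zb := zz_pr _
  set e : O.I → Mt d := ee O V with he
  have hep : ∀ i, IsPr (e i) := ee_pr hV
  set ρ : O.I → ℝ := fun i => hs (e i - p i) with hρ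
  have hρ0 : ∀ i, 0 ≤ ρ i := fun i => Pool.Agent.W683.RC.hs_nonneg _
  have hρs : ∑ i, ρ i ≤ ε * d := hN.near
  set bad : O.I → ℝ := fun i => if φ (rk O i) then 0 else rk O i with hbad
  have hbads : ∑ i, bad i ≤ ε * d := hr
  have hbad0 : ∀ i, 0 ≤ bad i := by
    intro i
    simp only [hbad]
    split_ifs
    · exact le_rfl
    · exact rk_nonneg i
  have hzbs : hs zb ≤ ε * d := by
    rw [hzb, hs_zz]
    refine le_trans (le_of_eq ?_) hbads
    refine sum_congr rfl fun i _ => ?_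
    simp only [hbad]
    split_ifs <;> rfl
  -- the parts of the projections
  set g : O.I → Mt d := fun i => zg * p i with hg
  have hgmem : ∀ i, g i ∈ O.alg := fun i => alg_mul (zz_mem _) (hN.mem i)
  have hgc : ∀ i, zg * p i = p i * zg := fun i => zz_comm _ (hN.mem i)
  have hbc : ∀ i, zb * p i = p i * zb := fun i => zz_comm _ (hN.mem i)
  have hprod : ∀ {z q : Mt d}, IsPr z → IsPr q → z * q = q * z → IsPr (z * q) := by
    intro z q hz hq hzq
    refine ⟨by rw [Matrix.conjTranspose_mul, hz.1, hq.1, hzq], ?_⟩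
    calc z * q * (z * q) = z * (q * z) * q := by simp only [Matrix.mul_assoc]
      _ = (z * z) * (q * q) := by rw [← hzq]; simp only [Matrix.mul_assoc]
      _ = z * q := by rw [hz.2, hq.2]
  have hgp : ∀ i, IsPr (g i) := fun i => hprod hzgp (hN.proj i) (hgc i)
  have hbp : ∀ i, IsPr (zb * p i) := fun i => hprod hzbp (hN.proj i) (hbc i)
  have hsplit : ∀ i, p i = g i + zb * p i := by
    intro i
    rw [hg]
    show p i = zg * p i + zb * p i
    rw [← Matrix.add_mul, hzg, hzb, zz_add, pO_mul_alg (hN.mem i)]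
  set β : O.I → ℝ := fun i => hs (zb * p i) with hβ
  have hβ0 : ∀ i, 0 ≤ β i := fun i => Pool.Agent.W683.RC.hs_nonneg _
  have hβs : ∑ i, β i ≤ 4 * (ε * d) := by
    have h1 : ∀ i, β i ≤ 2 * hs (zb * e i) + 2 * ρ i := by
      intro i
      have h2 : zb * p i = zb * e i - zb * (e i - p i) := by
        rw [Matrix.mul_sub]; abel
      have h3 := Pool.Agent.W683.RC.hs_sub_le (zb * e i) (zb * (e i - p i))
      have h4 := hs_pr_mul_le_self hzbp (e i - p i)
      show hs (zb * p i) ≤ 2 * hs (zb * e i) + 2 * hs (e i - p i)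
      rw [h2]
      linarith
    have h2 : ∑ i, hs (zb * e i) ≤ ε * d := by
      rw [he, sum_hs_mul_ee hV]
      exact (hs_mul_pr_le_self (EE_pr hV) _).trans hzbs
    have h3 := sum_le_sum fun i (_ : i ∈ (Finset.univ : Finset O.I)) => h1 i
    rw [sum_add_distrib, ← mul_sum, ← mul_sum] at h3
    linarith
  have heg : ∀ i, hs (e i - g i) ≤ 2 * ρ i + 2 * β i := by
    intro i
    have h1 : e i - g i = (e i - p i) + zb * p i := by
      have := hsplit i
      rw [eq_comm, ← eq_sub_iff_add_eq'] at this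
      rw [this]; abel
    rw [h1]
    exact hs_add_le _ _
  -- the commutator
  set X : Mt d := W 0 * W 1 - W 1 * W 0 with hX
  set σ : Fin 2 → O.I → ℝ := fun j i => hs (W j * e i - e i * W j) with hσ
  have hσ0 : ∀ j i, 0 ≤ σ j i := fun j i => Pool.Agent.W683.RC.hs_nonneg _
  have hσs : ∀ j, ∑ i, σ j i ≤ ε * d := hc
  set ω : Fin 2 → O.I → ℝ := fun j i => hs (e i * (W j - a j)) with hω
  have hω0 : ∀ j i, 0 ≤ ω j i := fun j i => Pool.Agent.W683.RC.hs_nonneg _
  have hωs : ∀ j, ∑ i, ω j i ≤ ε * d := fun j => (sum_hs_ee_mul_le hV _).trans (hWa j)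
  have hXy : ∀ y : Mt d, hs (X * y) ≤ 4 * hs y := by
    intro y
    have h1 : X * y = W 0 * (W 1 * y) - W 1 * (W 0 * y) := by
      rw [hX, Matrix.sub_mul, Matrix.mul_assoc, Matrix.mul_assoc]
    have h2 := Pool.Agent.W683.RC.hs_sub_le (W 0 * (W 1 * y)) (W 1 * (W 0 * y))
    rw [hs_unit_mul (hW 0), hs_unit_mul (hW 1), hs_unit_mul (hW 1), hs_unit_mul (hW 0)] at h2
    rw [h1]
    linarith
  have hmain : ∀ i, hs (X * e i) ≤ 10 * (σ 0 i + σ 1 i) +
      120 * (ω 0 i + ω 1 i + 8 * ρ i + 8 * β i) + 4 * bad i + 40 * ρ i := by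
    intro i
    have t1 := hσ0 0 i
    have t2 := hσ0 1 i
    have t3 := hω0 0 i
    have t4 := hω0 1 i
    have t5 := hρ0 i
    have t6 := hβ0 i
    have t7 := hbad0 i
    by_cases hgood : φ (rk O i)
    · by_cases hnice : ρ i ≤ rk O i / 10
      · -- nice
        have h1 : tr (p i) < 2 * (9 / 10 * m0) := by
          have h2 := pr_abs_tr_sub (hN.proj i) (hep i)
          rw [pr_tr_eq_hs (hep i)] at h2
          have h3 : hs (e i) = rk O i := hs_ee hV i
          rw [h3, hs_sub_comm] at h2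
          have h4 := (abs_le.1 h2).2
          have h5 : hs (e i - p i) = ρ i := rfl
          rw [h5] at h4
          have h6 := hgood.2
          nlinarith
        have h2 : tr (g i) ≤ tr (p i) := by
          conv_rhs => rw [hsplit i]
          rw [tr_add]
          linarith [pr_tr_nonneg (hbp i)]
        have h3 : ∀ j, 0 < tr (pr O j * g i) → 9 / 10 * m0 ≤ rk O j := by
          intro j hj
          by_contra hcon
          have h4 : ¬ φ (rk O j) := fun h => hcon h.1
          have h5 : pr O j * g i = 0 := by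
            show pr O j * (zg * p i) = 0
            rw [← Matrix.mul_assoc, hzg, pr_mul_zz φ j h4, Matrix.zero_mul]
          rw [h5, tr_zero] at hj
          exact lt_irrefl _ hj
        have h4 := hMIN d O (g i) (9 / 10 * m0) (hgmem i) (hgp i) h3 (lt_of_le_of_lt h2 h1)
        obtain ⟨c0, hc0⟩ := h4 (a 0) (ha 0)
        obtain ⟨c1, hc1⟩ := h4 (a 1) (ha 1)
        have h5 := comm_bound (hW 0) (hW 1) (ha1 0) (ha1 1) (hep i) (hgp i) hc0 hc1
        have h6 := heg i
        have h7 : hs (X * e i) ≤ 10 * (σ 0 i + σ 1 i) + 120 * (ω 0 i + ω 1 i +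
          4 * hs (e i - g i)) := h5
        linarith
      · have h1 := hXy (e i)
        have h2 : hs (e i) = rk O i := hs_ee hV i
        rw [h2] at h1
        push Not at hnice
        linarith
    · have h1 := hXy (e i)
      have h2 : hs (e i) = rk O i := hs_ee hV i
      rw [h2] at h1
      have h3 : bad i = rk O i := by
        simp only [hbad]
        rw [if_neg hgood]
      linarith
  have hsum := sum_le_sum fun i (_ : i ∈ (Finset.univ : Finset O.I)) => hmain i
  have hXE : ∑ i, hs (X * e i) = hs (X * (V * pO O * Vᴴ)) := sum_hs_mul_ee hV X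
  have hX2 := hs_pyth_right (EE_pr (O := O) hV) X
  have hX3 := hXy (1 - V * pO O * Vᴴ)
  rw [hs_compl_EE hV] at hX3
  rw [hXE] at hsum
  simp only [sum_add_distrib, ← mul_sum] at hsum
  have s0 := hσs 0
  have s1 := hσs 1
  have o0 := hωs 0
  have o1 := hωs 1
  have hεd : 0 ≤ ε * d := by positivity
  nlinarith

end

end Pool.Agent.N957.NH
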