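import Pool.Agent.N957.NH.Stm

/-!
# Project NH: monotone central functions are nearly invariant
-/

set_option autoImplicit false

namespace Pool.Agent.N957.NH

open Matrix Finset
open scoped ComplexOrder
open Pool.Agent.W661.RC Pool.Agent.W683.RC Pool.Agent.N303.KQ

noncomputable section

namespace MONO

variable {d : ℕ} {O : Out d}

theorem eu_mul_ne {i j : O.I} (h : i ≠ j) : eu O i i * eu O j j = 0 := by
  ext a b
  rw [Matrix.mul_apply, Matrix.zero_apply]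
  refine sum_eq_zero fun c _ => ?_
  simp only [eu]
  by_cases h1 : a = i ∧ c = i
  · rw [if_neg (c := c = j ∧ b = j), mul_zero]
    rintro ⟨h3, _⟩
    exact h (h1.2.symm.trans h3)
  · rw [if_neg h1, zero_mul]

theorem pr_mul_pr_ne {i j : O.I} (h : i ≠ j) : pr O i * pr O j = 0 := by
  rw [pr, pr, Am_mul (BD_eu rfl), eu_mul_ne h, Am, Bm_zero]
  simp

theorem hs_pr (i : O.I) : hs (pr O i) = rk O i := by
  have h1 : ip (pr O i) (pr O i) = ((rk O i : ℝ) : ℂ) := by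
    rw [pr, ip_Am _ _ (BD_eu rfl), sum_eq_single i, sum_eq_single i]
    · simp [eu, rk]
    · intro b _ hb
      simp [eu, hb]
    · intro h
      exact absurd (mem_univ _) h
    · intro b _ hb
      refine sum_eq_zero fun c _ => ?_
      simp [eu, hb]
    · intro h
      exact absurd (mem_univ _) h
  rw [ip_self] at h1
  exact_mod_cast h1

theorem tr_pr (i : O.I) : tr (pr O i) = rk O i := by
  rw [pr_tr_eq_hs (pr_isPr i), hs_pr]

theorem rk_nonneg (i : O.I) : 0 ≤ rk O i := Nat.cast_nonneg _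

theorem sum_rk : ∑ i, rk O i = D0 O := by
  rw [← sum_hs_pr]
  exact sum_congr rfl fun i _ => (hs_pr i).symm

theorem fc_mul_pr (φ : ℝ → ℝ) (i : O.I) :
    fc O φ * pr O i = ((φ (rk O i) : ℝ) : ℂ) • pr O i := by
  rw [fc, Matrix.sum_mul, sum_eq_single i]
  · rw [Matrix.smul_mul, (pr_isPr i).2]
  · intro j _ hj
    rw [Matrix.smul_mul, pr_mul_pr_ne hj, smul_zero]
  · intro h
    exact absurd (mem_univ _) h

theorem fc_herm (φ : ℝ → ℝ) : (fc O φ)ᴴ = fc O φ := by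
  rw [fc, conjTranspose_sum]
  refine sum_congr rfl fun i _ => ?_
  rw [conjTranspose_smul, (pr_isPr i).1]
  congr 1
  exact Complex.conj_ofReal _

theorem fc_psd {φ : ℝ → ℝ} (hφ : ∀ r, 0 ≤ φ r) : (fc O φ).PosSemidef :=
  Matrix.posSemidef_sum _ fun i _ => psd_smul (pr_psd (pr_isPr i)) (hφ _)

theorem fc_le_one {φ : ℝ → ℝ} (hφ : ∀ r, φ r ≤ 1) : Le (fc O φ) 1 := by
  have h1 : Le (fc O φ) (∑ i, ((1 : ℝ) : ℂ) • pr O i) :=
    Le_sum _ _ _ fun i _ => Le_smul_right (pr_psd (pr_isPr i)) (hφ _)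
  have h2 : (∑ i, ((1 : ℝ) : ℂ) • pr O i) = pO O := by
    rw [← sum_pr]
    refine sum_congr rfl fun i _ => ?_
    rw [Complex.ofReal_one, one_smul]
  rw [h2] at h1
  exact Le_trans h1 (pr_le_one pO_pr)

theorem hs_fc (φ : ℝ → ℝ) : hs (fc O φ) = ∑ i, φ (rk O i) ^ 2 * rk O i := by
  rw [hs_eq_tr, fc_herm]
  have e : fc O φ * fc O φ = ∑ i, ((φ (rk O i) ^ 2 : ℝ) : ℂ) • pr O i := by
    have e1 : fc O φ * fc O φ = fc O φ * ∑ i, ((φ (rk O i) : ℝ) : ℂ) • pr O i := rfl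
    rw [e1, Matrix.mul_sum]
    refine sum_congr rfl fun i _ => ?_
    rw [Matrix.mul_smul, fc_mul_pr, smul_smul]
    congr 1
    push_cast
    ring
  rw [e, tr_sum]
  refine sum_congr rfl fun i _ => ?_
  rw [tr_smul, tr_pr]

theorem tr_fc (φ : ℝ → ℝ) : tr (fc O φ) = ∑ i, φ (rk O i) * rk O i := by
  rw [fc, tr_sum]
  refine sum_congr rfl fun i _ => ?_
  rw [tr_smul, tr_pr]

theorem tr_fc_mul (φ : ℝ → ℝ) (x : Mt d) :
    tr (fc O φ * x) = ∑ i, φ (rk O i) * tr (pr O i * x) := by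
  rw [fc, Matrix.sum_mul, tr_sum]
  refine sum_congr rfl fun i _ => ?_
  rw [Matrix.smul_mul, tr_smul]

theorem tr_fc_conj (φ : ℝ → ℝ) (V : Mt d) :
    tr (fc O φ * (V * fc O φ * Vᴴ)) =
      ∑ i, φ (rk O i) * tr (fc O φ * (V * pr O i * Vᴴ)) := by
  have e : V * fc O φ * Vᴴ = ∑ i, ((φ (rk O i) : ℝ) : ℂ) • (V * pr O i * Vᴴ) := by
    rw [fc, Matrix.mul_sum, Matrix.sum_mul]
    refine sum_congr rfl fun i _ => ?_
    rw [Matrix.mul_smul, Matrix.smul_mul]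
  rw [e, Matrix.mul_sum, tr_sum]
  refine sum_congr rfl fun i _ => ?_
  rw [Matrix.mul_smul, tr_smul]

theorem conj_isPr {V x : Mt d} (hV : Vᴴ * V = 1) (hx : IsPr x) : IsPr (V * x * Vᴴ) := by
  refine ⟨?_, ?_⟩
  · rw [conjTranspose_mul, conjTranspose_mul, conjTranspose_conjTranspose, hx.1,
      Matrix.mul_assoc]
  · calc V * x * Vᴴ * (V * x * Vᴴ) = V * x * (Vᴴ * V) * x * Vᴴ := by
          simp only [Matrix.mul_assoc]
      _ = V * (x * x) * Vᴴ := by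
          rw [hV, Matrix.mul_one]
          simp only [Matrix.mul_assoc]
      _ = V * x * Vᴴ := by rw [hx.2]

theorem conj_tr {V : Mt d} (hV : Vᴴ * V = 1) (x : Mt d) : tr (V * x * Vᴴ) = tr x := by
  rw [tr_mul_comm, ← Matrix.mul_assoc, hV, Matrix.one_mul]

/-- `∑ D_i` -/
theorem sum_D {φ : ℝ → ℝ} (hφ : ∀ r, φ r ≤ 1) {V : Mt d} (hV : Vᴴ * V = 1) :
    ∑ i, (φ (rk O i) * rk O i - tr (fc O φ * (V * pr O i * Vᴴ))) ≤ (d : ℝ) - D0 O := by
  rw [sum_sub_distrib, ← tr_fc, ← tr_sum, ← Matrix.mul_sum, ← Matrix.sum_mul, ← Matrix.mul_sum,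
    sum_pr]
  have h1 : tr (fc O φ) - tr (fc O φ * (V * pO O * Vᴴ)) =
      tr (fc O φ * (1 - V * pO O * Vᴴ)) := by
    rw [Matrix.mul_sub, Matrix.mul_one, tr_sub]
  rw [h1]
  have hP := conj_isPr hV (pO_pr (O := O))
  refine (tr_mul_le_of_le_one (fc_le_one hφ) (pr_psd (pr_compl hP))).trans ?_
  rw [tr_sub, tr_one, conj_tr hV, tr_pO]

/-- (a) -/
theorem tr_fc_le (hTR : S_TR) {φ : ℝ → ℝ} (hm : Monotone φ) {p : Mt d}
    (hp : p ∈ O.alg) (hpr : IsPr p) : tr (fc O φ * p) ≤ φ (tr p) * tr p := by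
  have h1 : tr p = ∑ i, tr (pr O i * p) := by
    rw [← tr_sum, ← Matrix.sum_mul, sum_pr, pO_mul_alg hp]
  rw [tr_fc_mul]
  have h2 : ∀ i, φ (rk O i) * tr (pr O i * p) ≤ φ (tr p) * tr (pr O i * p) := by
    intro i
    have h3 : 0 ≤ tr (pr O i * p) := tr_mul_pr_nonneg (pr_psd (pr_isPr i)) hpr
    rcases h3.eq_or_lt with h4 | h4
    · rw [← h4, mul_zero, mul_zero]
    · exact mul_le_mul_of_nonneg_right (hm (hTR d O p hp hpr i h4)) h3
  calc ∑ i, φ (rk O i) * tr (pr O i * p) ≤ ∑ i, φ (tr p) * tr (pr O i * p) :=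
        sum_le_sum fun i _ => h2 i
    _ = φ (tr p) * tr p := by rw [← mul_sum, ← h1]

theorem num {A ρ r t s Λ φr φt : ℝ} (hA0 : 0 ≤ A) (hA : A ≤ φt * t) (hρ : 0 ≤ ρ) (hr : 0 ≤ r)
    (htr : |t - r| ≤ ρ) (t0 : 0 ≤ t) (hs0 : 0 < s) (hs1 : s ≤ 1) (hΛ : 0 < Λ) (φr0 : 0 ≤ φr)
    (φr1 : φr ≤ 1) (φt0 : 0 ≤ φt) (φt1 : φt ≤ 1) (hmono : t ≤ r → φt ≤ φr)
    (hlip : 0 < r → r ≤ t → φt ≤ φr + Λ * (t - r) / r) :
    (√A + √ρ) ^ 2 ≤ φr * r + (4 + 2 * Λ) * ρ + s * r + ρ / s := by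
  have habs := abs_le.1 htr
  have hd : φt * t ≤ φr * r + (2 + 2 * Λ) * ρ := by
    have hΛρ : 0 ≤ Λ * ρ := by positivity
    rcases le_total t r with h | h
    · have h1 : φt * t ≤ φr * r := mul_le_mul (hmono h) h t0 φr0
      nlinarith
    · rcases le_or_gt ρ r with h2 | h2
      · rcases hr.eq_or_lt with h3 | h3
        · have h4 : t ≤ 0 := by linarith
          have h5 : t = 0 := le_antisymm h4 t0
          rw [h5, mul_zero]
          have : 0 ≤ φr * r := mul_nonneg φr0 hr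
          nlinarith
        · have h4 := hlip h3 h
          have h5 : t / r ≤ 2 := by
            rw [div_le_iff₀ h3]
            linarith
          have h6 : 0 ≤ t / r := div_nonneg t0 hr
          have h7 : φt * t ≤ (φr + Λ * (t - r) / r) * t := mul_le_mul_of_nonneg_right h4 t0
          have h8 : (φr + Λ * (t - r) / r) * t = φr * r + φr * (t - r) +
              Λ * (t - r) * (t / r) := by
            field_simp
            ring
          have h9 : φr * (t - r) ≤ 1 * ρ := mul_le_mul φr1 habs.2 (by linarith) (by norm_num)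
          have h10 : Λ * (t - r) * (t / r) ≤ Λ * ρ * 2 := by
            apply mul_le_mul _ h5 h6 hΛρ
            exact mul_le_mul_of_nonneg_left habs.2 hΛ.le
          nlinarith
      · have h3 : φt * t ≤ 1 * t := mul_le_mul_of_nonneg_right φt1 t0
        have : 0 ≤ φr * r := mul_nonneg φr0 hr
        nlinarith
  have hA1 : A ≤ r + ρ := by
    have h3 : φt * t ≤ 1 * t := mul_le_mul_of_nonneg_right φt1 t0
    linarith
  set a := √A with ha
  set b := √ρ with hb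
  have ha2 : a ^ 2 = A := Real.sq_sqrt hA0
  have hb2 : b ^ 2 = ρ := Real.sq_sqrt hρ
  have h1 : s * a ^ 2 + b ^ 2 / s - 2 * a * b = (s * a - b) ^ 2 / s := by
    field_simp
    ring
  have h2 : 0 ≤ (s * a - b) ^ 2 / s := by positivity
  rw [← h1, ha2, hb2] at h2
  have h3 : (a + b) ^ 2 = a ^ 2 + b ^ 2 + 2 * a * b := by ring
  rw [h3, ha2, hb2]
  have h4 : s * A ≤ s * r + ρ := by
    have h5 : s * A ≤ s * (r + ρ) := mul_le_mul_of_nonneg_left hA1 hs0.le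
    have h6 : s * ρ ≤ 1 * ρ := mul_le_mul_of_nonneg_right hs1 hρ
    linarith
  linarith

end MONO

open MONO in
theorem MONO (hTR : S_TR) : S_MONO := by
  intro Λ κ hΛ hκ
  set s : ℝ := min 1 (κ / (14 + 4 * Λ)) with hs
  have hs0 : 0 < s := lt_min one_pos (by positivity)
  have hs1 : s ≤ 1 := min_le_left _ _
  have hs2 : s ≤ κ / (14 + 4 * Λ) := min_le_right _ _
  refine ⟨s ^ 2, by positivity, ?_⟩
  intro d O V p φ hd hN hD hφ
  have hV := hN.un
  set r : O.I → ℝ := fun i => rk O i with hr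
  set ρ : O.I → ℝ := fun i => Pool.Agent.W661.RC.hs (V * pr O i * Vᴴ - p i) with hρ
  set E : O.I → ℝ := fun i => tr (fc O φ * (V * pr O i * Vᴴ)) with hE
  have key : ∀ i, E i ≤ φ (r i) * r i + ((4 + 2 * Λ) * ρ i + s * r i + ρ i / s) := by
    intro i
    have h1 := tr_mul_pr_le (fc_psd (O := O) hφ.nn) (fc_le_one hφ.le) (hN.proj i)
      (conj_isPr hV (pr_isPr i))
    have h2 := tr_fc_le hTR hφ.mono (hN.mem i) (hN.proj i)
    have h3 : |tr (p i) - r i| ≤ ρ i := by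
      have h4 := pr_abs_tr_sub (hN.proj i) (conj_isPr hV (pr_isPr i))
      rw [conj_tr hV, tr_pr, hs_sub_comm] at h4
      exact h4
    have h5 := num (A := tr (fc O φ * p i)) (ρ := ρ i) (r := r i) (t := tr (p i)) (s := s)
      (Λ := Λ) (φr := φ (r i)) (φt := φ (tr (p i)))
      (tr_mul_pr_nonneg (fc_psd hφ.nn) (hN.proj i)) h2 (hs_nonneg _) (rk_nonneg i) h3
      (pr_tr_nonneg (hN.proj i)) hs0 hs1 hΛ (hφ.nn _) (hφ.le _) (hφ.nn _) (hφ.le _)
      (fun h => hφ.mono h) (fun h h' => hφ.lip _ _ h h')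
    have h6 := h1.trans h5
    rw [hE]
    linarith
  have hsr : ∑ i, r i ≤ d := by
    rw [hr]
    have h1 : ∑ i, rk O i = D0 O := sum_rk
    rw [h1]
    exact D0_le
  have hsρ : ∑ i, ρ i ≤ s ^ 2 * d := hN.near
  have hd0 : (0 : ℝ) < d := by exact_mod_cast hd
  rw [hs_comm_herm hV (fc_herm φ), hs_fc, tr_fc_conj, ← mul_sub, ← sum_sub_distrib]
  have h1 : ∑ i, (φ (rk O i) ^ 2 * rk O i - φ (rk O i) * tr (fc O φ * (V * pr O i * Vᴴ))) ≤
      ∑ i, ((φ (r i) * r i - E i) + ((4 + 2 * Λ) * ρ i + s * r i + ρ i / s)) := by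
    refine sum_le_sum fun i _ => ?_
    have h2 : 0 ≤ (φ (r i) * r i - E i) + ((4 + 2 * Λ) * ρ i + s * r i + ρ i / s) := by
      have := key i
      linarith
    have h3 : 0 ≤ (4 + 2 * Λ) * ρ i + s * r i + ρ i / s := by
      have h4 : 0 ≤ ρ i := hs_nonneg _
      have h5 : 0 ≤ r i := rk_nonneg i
      positivity
    have h4 : φ (r i) ^ 2 * r i - φ (r i) * E i = φ (r i) * (φ (r i) * r i - E i) := by ring
    change φ (r i) ^ 2 * r i - φ (r i) * E i ≤ _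
    rw [h4]
    have h5 : φ (r i) * (φ (r i) * r i - E i) ≤
        φ (r i) * ((φ (r i) * r i - E i) + ((4 + 2 * Λ) * ρ i + s * r i + ρ i / s)) :=
      mul_le_mul_of_nonneg_left (by linarith) (hφ.nn _)
    have h6 : φ (r i) * ((φ (r i) * r i - E i) + ((4 + 2 * Λ) * ρ i + s * r i + ρ i / s)) ≤
        1 * ((φ (r i) * r i - E i) + ((4 + 2 * Λ) * ρ i + s * r i + ρ i / s)) :=
      mul_le_mul_of_nonneg_right (hφ.le _) h2
    linarith
  have h2 : ∑ i, ((φ (r i) * r i - E i) + ((4 + 2 * Λ) * ρ i + s * r i + ρ i / s)) =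
      ∑ i, (φ (r i) * r i - E i) + ((4 + 2 * Λ) * ∑ i, ρ i + s * ∑ i, r i + (∑ i, ρ i) / s) := by
    rw [sum_add_distrib, sum_add_distrib, sum_add_distrib, ← mul_sum, ← mul_sum, ← sum_div]
  have h3 : ∑ i, (φ (r i) * r i - E i) ≤ s ^ 2 * d := (sum_D hφ.le hV).trans hD
  have h4 : (4 + 2 * Λ) * ∑ i, ρ i ≤ (4 + 2 * Λ) * (s ^ 2 * d) :=
    mul_le_mul_of_nonneg_left hsρ (by positivity)
  have h5 : s * ∑ i, r i ≤ s * d := mul_le_mul_of_nonneg_left hsr hs0.le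
  have h6 : (∑ i, ρ i) / s ≤ s * d := by
    rw [div_le_iff₀ hs0]
    calc ∑ i, ρ i ≤ s ^ 2 * d := hsρ
      _ = s * d * s := by ring
  have h7 : s ^ 2 * d ≤ s * d := by
    have : s ^ 2 ≤ s := by nlinarith
    exact mul_le_mul_of_nonneg_right this hd0.le
  have h8 : (4 + 2 * Λ) * (s ^ 2 * d) ≤ (4 + 2 * Λ) * (s * d) :=
    mul_le_mul_of_nonneg_left h7 (by positivity)
  have h9 : (14 + 4 * Λ) * (s * d) ≤ κ * d := by
    have : (14 + 4 * Λ) * s ≤ κ := by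
      rw [le_div_iff₀ (by positivity)] at hs2
      linarith
    calc (14 + 4 * Λ) * (s * d) = (14 + 4 * Λ) * s * d := by ring
      _ ≤ κ * d := mul_le_mul_of_nonneg_right this hd0.le
  linarith

end

end Pool.Agent.N957.NH
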