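import Pool.Agent.N957.NH.Stm

/-!
# Project NH: traces of projections of the block algebra (TR, MIN)
-/

set_option autoImplicit false

namespace Pool.Agent.N957.NH

open Matrix Finset
open scoped ComplexOrder
open Pool.Agent.W661.RC Pool.Agent.W683.RC Pool.Agent.N303.KQ

namespace TRMIN

variable {d : ℕ} {O : Out d}

theorem alg_smul {a : Mt d} (ha : a ∈ O.alg) (c : ℂ) : c • a ∈ O.alg := by
  obtain ⟨α, hα, rfl⟩ := mem_alg.1 ha
  rw [← Am_smul]
  refine Am_mem fun i j hij => ?_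
  rw [Matrix.smul_apply, hα i j hij, smul_zero]

theorem alg_sub {a b : Mt d} (ha : a ∈ O.alg) (hb : b ∈ O.alg) : a - b ∈ O.alg := by
  obtain ⟨α, hα, rfl⟩ := mem_alg.1 ha
  obtain ⟨β, hβ, rfl⟩ := mem_alg.1 hb
  have h : Am O α - Am O β = Am O (α + (-1 : ℂ) • β) := by
    rw [Am_add, Am_smul]
    module
  rw [h]
  refine Am_mem fun i j hij => ?_
  rw [Matrix.add_apply, Matrix.smul_apply, hα i j hij, hβ i j hij, smul_zero, add_zero]

theorem pr_mem (i : O.I) : pr O i ∈ O.alg := Am_mem (BD_eu rfl)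

theorem trace_pr (i : O.I) : Matrix.trace (pr O i) = (O.l (O.c i) : ℂ) := by
  have h1 := ip_Am (O := O) (eu O i i) (eu O i i) (BD_eu rfl)
  have h2 : ip (Am O (eu O i i)) (Am O (eu O i i)) = Matrix.trace (pr O i) := by
    rw [ip]
    change Matrix.trace ((pr O i)ᴴ * pr O i) = _
    rw [(pr_isPr i).1, (pr_isPr i).2]
  rw [← h2, h1, sum_eq_single i, sum_eq_single i]
  · simp [eu]
  · intro b _ hb
    simp [eu, hb]
  · intro h; exact absurd (mem_univ _) h
  · intro b _ hb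
    refine sum_eq_zero fun c _ => ?_
    simp [eu, hb]
  · intro h; exact absurd (mem_univ _) h

theorem tr_pr (i : O.I) : tr (pr O i) = rk O i := by
  rw [tr, trace_pr, rk]
  simp

theorem corner (i : O.I) {x : Mt d} (hx : x ∈ O.alg) :
    ∃ z : ℂ, pr O i * x * pr O i = z • pr O i := by
  obtain ⟨α, hα, rfl⟩ := mem_alg.1 hx
  refine ⟨α i i, ?_⟩
  rw [pr, Am_mul (BD_eu rfl), Am_mul ((BD_eu rfl).mul hα), ← Am_smul]
  congr 1
  ext a b
  rw [Matrix.mul_apply, Matrix.smul_apply, smul_eq_mul, sum_eq_single i]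
  · rw [Matrix.mul_apply, sum_eq_single i]
    · simp only [eu]
      by_cases ha : a = i <;> by_cases hb : b = i <;> simp [ha, hb]
    · intro c _ hc
      simp [eu, hc]
    · intro h; exact absurd (mem_univ _) h
  · intro c _ hc
    simp [eu, hc]
  · intro h; exact absurd (mem_univ _) h

theorem tr_pep {p e : Mt d} (hp : IsPr p) : tr (p * e * p) = tr (e * p) := by
  rw [tr_mul_comm, ← Matrix.mul_assoc, hp.2, tr_mul_comm]

theorem key {p : Mt d} (hp : p ∈ O.alg) (h : IsPr p) (i : O.I) (hi : 0 < tr (pr O i * p)) :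
    ∃ r : ℝ, 0 < r ∧ pr O i * p * pr O i = (r : ℂ) • pr O i := by
  obtain ⟨z, hz⟩ := corner i hp
  have h1 : tr (pr O i * p * pr O i) = tr (pr O i * p) := by
    rw [tr_pep (pr_isPr i), tr_mul_comm]
  have h2 : Matrix.trace (pr O i * p * pr O i) = z * (O.l (O.c i) : ℂ) := by
    rw [hz, Matrix.trace_smul, trace_pr, smul_eq_mul]
  have h3 : 0 < z.re * (O.l (O.c i) : ℝ) := by
    have h4 : tr (pr O i * p * pr O i) = z.re * (O.l (O.c i) : ℝ) := by
      rw [tr, h2]
      simp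
    rw [← h4, h1]
    exact hi
  have hl : (0 : ℝ) < (O.l (O.c i) : ℝ) := by
    rcases (Nat.cast_nonneg (α := ℝ) (O.l (O.c i))).lt_or_eq with h5 | h5
    · exact h5
    · rw [← h5, mul_zero] at h3
      exact absurd h3 (lt_irrefl _)
  have hz0 : 0 < z.re := (pos_iff_pos_of_mul_pos h3).2 hl
  refine ⟨z.re, hz0, ?_⟩
  have h6 : star z = z := by
    have h7 : (pr O i * p * pr O i)ᴴ = pr O i * p * pr O i := by
      rw [Matrix.conjTranspose_mul, Matrix.conjTranspose_mul, (pr_isPr i).1, h.1, Matrix.mul_assoc]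
    have h8 : star (Matrix.trace (pr O i * p * pr O i)) = Matrix.trace (pr O i * p * pr O i) := by
      rw [← Matrix.trace_conjTranspose, h7]
    rw [h2, star_mul', star_natCast] at h8
    have hl' : (O.l (O.c i) : ℂ) ≠ 0 := by exact_mod_cast hl.ne'
    exact mul_right_cancel₀ hl' h8
  rw [hz]
  congr 1
  exact (Complex.conj_eq_iff_re.1 h6).symm

/-- a minimal projection below `p` -/
theorem sub_pr {p : Mt d} (hp : p ∈ O.alg) (h : IsPr p) (i : O.I) (hi : 0 < tr (pr O i * p)) :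
    ∃ r : ℝ, 0 < r ∧ pr O i * p * pr O i = (r : ℂ) • pr O i ∧
      IsPr ((r⁻¹ : ℂ) • (p * pr O i * p)) ∧
      p * ((r⁻¹ : ℂ) • (p * pr O i * p)) = (r⁻¹ : ℂ) • (p * pr O i * p) ∧
      tr ((r⁻¹ : ℂ) • (p * pr O i * p)) = rk O i ∧ (r⁻¹ : ℂ) • (p * pr O i * p) ∈ O.alg := by
  obtain ⟨r, hr, hr2⟩ := key hp h i hi
  have hrc : (r : ℂ) ≠ 0 := by exact_mod_cast hr.ne'
  refine ⟨r, hr, hr2, ⟨?_, ?_⟩, ?_, ?_, ?_⟩
  · rw [Matrix.conjTranspose_smul, Matrix.conjTranspose_mul, Matrix.conjTranspose_mul,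
      (pr_isPr i).1, h.1, Matrix.mul_assoc, star_inv₀]
    congr 2
    exact Complex.conj_ofReal r
  · rw [Matrix.smul_mul, Matrix.mul_smul, smul_smul]
    have e1 : p * pr O i * p * (p * pr O i * p) = (r : ℂ) • (p * pr O i * p) := by
      calc p * pr O i * p * (p * pr O i * p) = p * (pr O i * (p * p) * pr O i) * p := by
            simp only [Matrix.mul_assoc]
        _ = p * (pr O i * p * pr O i) * p := by rw [h.2]
        _ = _ := by rw [hr2, Matrix.mul_smul, Matrix.smul_mul]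
    rw [e1, smul_smul]
    congr 1
    field_simp
  · rw [Matrix.mul_smul, ← Matrix.mul_assoc, ← Matrix.mul_assoc, h.2]
  · have e2 : ((r : ℂ))⁻¹ = ((r⁻¹ : ℝ) : ℂ) := by push_cast; rfl
    rw [e2, tr_smul, tr_pep h]
    have e3 : tr (pr O i * p) = r * rk O i := by
      have e4 : tr (pr O i * p * pr O i) = tr (pr O i * p) := by
        rw [tr_pep (pr_isPr i), tr_mul_comm]
      rw [← e4, hr2, tr_smul, tr_pr]
    rw [e3]
    field_simp
  · exact alg_smul (alg_mul (alg_mul hp (pr_mem i)) hp) _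

theorem exists_meet {p : Mt d} (hp : p ∈ O.alg) (h : IsPr p) (h0 : p ≠ 0) :
    ∃ i, 0 < tr (pr O i * p) := by
  by_contra hne
  push Not at hne
  have h1 : ∑ i, tr (pr O i * p) = tr p := by
    rw [← tr_sum, ← Matrix.sum_mul, sum_pr, pO_mul_alg hp]
  have h2 : 0 < tr p := by
    rw [pr_tr_eq_hs h]
    exact hs_pos h0
  have h3 : ∑ i, tr (pr O i * p) ≤ 0 := sum_nonpos fun i _ => hne i
  linarith

end TRMIN

open TRMIN

theorem TR : S_TR := by
  intro d O p hp h i hi
  obtain ⟨r, hr, _, hq, hpq, htr, _⟩ := sub_pr hp h i hi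
  rw [← htr]
  exact Le_tr (pr_le hq h hpq)

theorem MIN : S_MIN := by
  intro d O p b hp h hb hlt a ha
  by_cases h0 : p = 0
  · subst h0
    exact ⟨0, by simp⟩
  obtain ⟨i, hi⟩ := exists_meet hp h h0
  obtain ⟨r, hr, hr2, hq, hpq, htr, hqm⟩ := sub_pr hp h i hi
  set q := ((r : ℂ)⁻¹) • (p * pr O i * p) with hqd
  have hpq0 : p - q = 0 := by
    by_contra hne
    have hs : IsPr (p - q) := pr_sub hq h hpq
    have hsm : p - q ∈ O.alg := alg_sub hp hqm
    obtain ⟨j, hj⟩ := exists_meet hsm hs hne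
    have h1 := TR d O (p - q) hsm hs j hj
    have h2 : 0 < tr (pr O j * p) := by
      have h3 : 0 ≤ tr (pr O j * q) := tr_mul_nonneg (pr_psd (pr_isPr j)) (pr_psd hq)
      have h4 : tr (pr O j * (p - q)) = tr (pr O j * p) - tr (pr O j * q) := by
        rw [Matrix.mul_sub, tr_sub]
      linarith
    have h5 := hb j h2
    have h6 := hb i hi
    have h7 : tr (p - q) = tr p - tr q := tr_sub _ _
    linarith
  have hpe : p = q := sub_eq_zero.1 hpq0
  obtain ⟨z, hz⟩ := corner i (alg_mul (alg_mul hp ha) hp)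
  refine ⟨z * (r : ℂ)⁻¹, ?_⟩
  have hrc : (r : ℂ) ≠ 0 := by exact_mod_cast hr.ne'
  have e1 : p * a * p = p * (p * a * p) * p := by
    calc p * a * p = (p * p) * a * (p * p) := by rw [h.2]
      _ = _ := by simp only [Matrix.mul_assoc]
  have e2 : q * (p * a * p) * q = (((r : ℂ)⁻¹ * (r : ℂ)⁻¹) * z) • (p * pr O i * p) := by
    rw [hqd, Matrix.smul_mul, Matrix.smul_mul, Matrix.mul_smul, smul_smul]
    have e3 : p * pr O i * p * (p * a * p) * (p * pr O i * p) =
        p * (pr O i * (p * a * p) * pr O i) * p := by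
      calc p * pr O i * p * (p * a * p) * (p * pr O i * p) =
          p * (pr O i * ((p * p) * a * (p * p)) * pr O i) * p := by simp only [Matrix.mul_assoc]
        _ = _ := by rw [h.2]
    rw [e3, hz, Matrix.mul_smul, Matrix.smul_mul, smul_smul]
  calc p * a * p = p * (p * a * p) * p := e1
    _ = q * (p * a * p) * q := by rw [← hpe]
    _ = (((r : ℂ)⁻¹ * (r : ℂ)⁻¹) * z) • (p * pr O i * p) := e2
    _ = (z * (r : ℂ)⁻¹) • q := by
        rw [hqd, smul_smul]
        congr 1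
        ring
    _ = (z * (r : ℂ)⁻¹) • p := by rw [← hpe]

end Pool.Agent.N957.NH
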