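import Pool.Agent.N957.NH.Core
import Pool.Agent.N957.NH.AVG
import Pool.Agent.N957.NH.PROJ
import Pool.Agent.N957.NH.TRMIN
import Pool.Agent.N957.NH.MONO
import Pool.Agent.N957.NH.CONC
import Pool.Agent.N957.NH.FIN

/-!
# Project NH: the finite-dimensional theorem
-/

set_option autoImplicit false

namespace Pool.Agent.N957.NH

theorem core : S_CORE := CORE AVG PROJ (MONO TR) CONC (FIN MIN)

end Pool.Agent.N957.NH
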