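import Pool.Agent.N303.KQ.Wt
import Pool.Agent.H21R2.HDefs

/-!
# Project NH (a non-hyperlinear group): statements of the parts

All norms are squared unnormalised Hilbert-Schmidt norms `hs`. `O : Out d` is a block algebra
`O.alg = Θ (⊕_κ M_{I_κ} ⊗ 1_{l κ}) Θ*` in `M_d`; `pr O i` (`i : O.I`) are its minimal projections,
of trace `O.l (O.c i)`; `D0 O = ∑ tr (pr O i)`.
-/

set_option autoImplicit false

namespace Pool.Agent.N957.NH

open Matrix Finset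
open scoped ComplexOrder
open Pool.Agent.W661.RC Pool.Agent.N303.KQ
open Pool.Agent.H21R2 (IsHyperlinear)

noncomputable section

/-- Every contraction which nearly commutes with the `u_s` is nearly scalar. -/
def Irr {k d : ℕ} (u : Fin k → Mt d) (C2 ε : ℝ) : Prop :=
  ∀ x : Mt d, Le (xᴴ * x) 1 → ∃ m : ℂ, hs (x - m • (1 : Mt d)) ≤ C2 * en u x + ε * d

/-- The size (trace) of the minimal projection `pr O i`. -/
def rk {d : ℕ} (O : Out d) (i : O.I) : ℝ := (O.l (O.c i) : ℝ)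

/-- The central element `∑ φ (rk i) pr_i` of the block algebra. -/
def fc {d : ℕ} (O : Out d) (φ : ℝ → ℝ) : Mt d := ∑ i, ((φ (rk O i) : ℝ) : ℂ) • pr O i

/-- Nondecreasing functions with values in `[0, 1]`, Lipschitz in the logarithm. -/
structure Adm (Λ : ℝ) (φ : ℝ → ℝ) : Prop where
  mono : Monotone φ
  nn : ∀ r, 0 ≤ φ r
  le : ∀ r, φ r ≤ 1
  lip : ∀ r t : ℝ, 0 < r → r ≤ t → φ t ≤ φ r + Λ * (t - r) / r

/-- `p i` are projections of the block algebra close to the `V pr_i V*`. -/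
structure Near {d : ℕ} (O : Out d) (V : Mt d) (p : O.I → Mt d) (ε : ℝ) : Prop where
  un : Vᴴ * V = 1
  mem : ∀ i, p i ∈ O.alg
  proj : ∀ i, IsPr (p i)
  near : ∑ i, hs (V * pr O i * Vᴴ - p i) ≤ ε * d

/-- PIECE: a piece of a hyperlinear approximation of a Kazhdan group, with a gap. -/
def S_PIECE : Prop :=
  ∀ (P : Type) [Group P] (k : ℕ) (γ : FreeGroup (Fin k) →* P) (w0 : FreeGroup (Fin k)),
    IsHyperlinear P → HasT P → Function.Surjective γ → γ w0 ≠ 1 →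
    ∃ C2 : ℝ, 1 ≤ C2 ∧ ∀ (R : Finset (FreeGroup (Fin k))) (ε : ℝ), (∀ w ∈ R, γ w = 1) → 0 < ε →
      ∃ (d : ℕ) (U : Fin k → unitaryGroup (Fin d) ℂ) (q : Mt d), IsPr q ∧ 0 < tr q ∧
        (∀ w ∈ R, hs (((FreeGroup.lift U w).1 - 1) * q) ≤ ε * tr q) ∧
        3 / 4 * tr q ≤ hs (((FreeGroup.lift U w0).1 - 1) * q) ∧
        en (fun s => (U s).1) q ≤ ε * tr q ∧
        Gap (fun s => (U s).1) C2 ε q

/-- COMP: compression to a piece. -/
def S_COMP : Prop :=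
  ∀ (k : ℕ) (R : Finset (FreeGroup (Fin k))) (w0 : FreeGroup (Fin k)) (C2 ε : ℝ), 1 ≤ C2 → 0 < ε →
    ∃ ε' : ℝ, 0 < ε' ∧ ∀ (d : ℕ) (U : Fin k → unitaryGroup (Fin d) ℂ) (q : Mt d),
      IsPr q → 0 < tr q →
      (∀ w ∈ R, hs (((FreeGroup.lift U w).1 - 1) * q) ≤ ε' * tr q) →
      3 / 4 * tr q ≤ hs (((FreeGroup.lift U w0).1 - 1) * q) →
      en (fun s => (U s).1) q ≤ ε' * tr q →
      Gap (fun s => (U s).1) C2 ε' q →
      ∃ (m : ℕ) (_ : 0 < m) (U' : Fin k → unitaryGroup (Fin m) ℂ),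
        (∀ w ∈ R, hs ((FreeGroup.lift U' w).1 - 1) ≤ ε * m) ∧
        1 / 2 * m ≤ hs ((FreeGroup.lift U' w0).1 - 1) ∧
        Irr (fun s => (U' s).1) (8 * C2) ε

/-- AVG: random signs. -/
def S_AVG : Prop :=
  ∀ (d : ℕ) (O : Out d) (T : Mt d →ₗ[ℂ] Mt d) (c : ℝ),
    (∀ a ∈ O.alg, Le (aᴴ * a) 1 → hs (T a) ≤ c) → ∑ i, hs (T (pr O i)) ≤ c

/-- PROJ: a projection of the algebra close to a projection which is close to the algebra. -/
def S_PROJ : Prop :=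
  ∀ (d : ℕ) (O : Out d) (y e : Mt d), y ∈ O.alg → IsPr e →
    ∃ p ∈ O.alg, IsPr p ∧ hs (e - p) ≤ 4 * hs (e - y)

/-- TR: a projection of the algebra which meets a block has at least the trace of the minimal
projections of this block. -/
def S_TR : Prop :=
  ∀ (d : ℕ) (O : Out d) (p : Mt d), p ∈ O.alg → IsPr p →
    ∀ i, 0 < tr (pr O i * p) → rk O i ≤ tr p

/-- MIN: a projection of the algebra of trace less than twice the traces of the minimal projections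
which it meets is minimal (or zero). -/
def S_MIN : Prop :=
  ∀ (d : ℕ) (O : Out d) (p : Mt d) (b : ℝ), p ∈ O.alg → IsPr p →
    (∀ i, 0 < tr (pr O i * p) → b ≤ rk O i) → tr p < 2 * b →
    ∀ a ∈ O.alg, ∃ z : ℂ, p * a * p = z • p

/-- MONO: monotone central functions nearly commute with a unitary which conjugates the algebra
nearly into itself. -/
def S_MONO : Prop :=
  ∀ (Λ κ : ℝ), 0 < Λ → 0 < κ → ∃ ε : ℝ, 0 < ε ∧
    ∀ (d : ℕ) (O : Out d) (V : Mt d) (p : O.I → Mt d) (φ : ℝ → ℝ), 0 < d → Near O V p ε →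
      (d : ℝ) - D0 O ≤ ε * d → Adm Λ φ →
      hs (V * fc O φ - fc O φ * V) ≤ κ * d

/-- CONC: if all central functions are nearly scalar then nearly all minimal projections have nearly
the same trace. -/
def S_CONC : Prop :=
  ∀ (C2 κ : ℝ), 1 ≤ C2 → 0 < κ → ∃ ε : ℝ, 0 < ε ∧
    ∀ (d k : ℕ) (u : Fin k → Mt d) (O : Out d), 0 < d → Irr u C2 ε →
      (∀ φ, Adm 20 φ → en u (fc O φ) ≤ ε * d) → (d : ℝ) - D0 O ≤ ε * d →
      ∃ m0 : ℝ, 0 < m0 ∧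
        ∑ i, (if 9 / 10 * m0 ≤ rk O i ∧ rk O i ≤ 11 / 10 * m0 then 0 else rk O i) ≤ κ * d

/-- FIN: two unitaries near the algebra which nearly commute with `V pr_i V*` nearly commute. -/
def S_FIN : Prop :=
  ∃ C : ℝ, 0 < C ∧
    ∀ (d : ℕ) (O : Out d) (V : Mt d) (p : O.I → Mt d) (W a : Fin 2 → Mt d) (m0 ε : ℝ), 0 < d →
      0 < m0 → 0 ≤ ε → Near O V p ε → (∀ j, (W j)ᴴ * W j = 1) →
      (d : ℝ) - D0 O ≤ ε * d →
      (∀ j, a j ∈ O.alg) → (∀ j, Le ((a j)ᴴ * a j) 1) → (∀ j, hs (W j - a j) ≤ ε * d) →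
      (∀ j, ∑ i, hs (W j * (V * pr O i * Vᴴ) - V * pr O i * Vᴴ * W j) ≤ ε * d) →
      ∑ i, (if 9 / 10 * m0 ≤ rk O i ∧ rk O i ≤ 11 / 10 * m0 then 0 else rk O i) ≤ ε * d →
      hs (W 0 * W 1 - W 1 * W 0) ≤ C * ε * d

/-- CORE: the finite-dimensional contradiction. -/
def S_CORE : Prop :=
  ∀ (k : ℕ) (K0 C2 : ℝ) (v : Fin k → Fin k → FreeGroup (Fin k)) (vh : Fin k → FreeGroup (Fin k))
    (vl : Fin 2 → FreeGroup (Fin k)), 0 < K0 → 1 ≤ C2 → ∃ ε : ℝ, 0 < ε ∧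
    ∀ (d : ℕ) (U UK : Fin k → unitaryGroup (Fin d) ℂ) (H : unitaryGroup (Fin d) ℂ)
      (W : Fin 2 → unitaryGroup (Fin d) ℂ) (O : Out d), 0 < d →
      (∀ a ∈ O.alg, Le (aᴴ * a) 1 → en (fun s => (UK s).1) a ≤ ε * d) →
      (∀ y : Mt d, Le (yᴴ * y) 1 → ∃ a ∈ O.alg, Le (aᴴ * a) 1 ∧
        hs (y - a) ≤ K0 * en (fun s => (UK s).1) y + ε * d) →
      (d : ℝ) - D0 O ≤ ε * d →
      Irr (fun s => (U s).1) C2 ε →
      (∀ s t, hs ((UK t).1 * (U s).1 - (U s).1 * (FreeGroup.lift UK (v s t)).1) ≤ ε * d) →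
      (∀ t, hs ((UK t).1 * H.1 - H.1 * (FreeGroup.lift UK (vh t)).1) ≤ ε * d) →
      (∀ j t, hs ((UK t).1 * (W j).1 - (W j).1 * (UK t).1) ≤ ε * d) →
      (∀ j, hs ((W j).1 * H.1 - H.1 * (FreeGroup.lift UK (vl j)).1) ≤ ε * d) →
      hs ((W 0).1 * (W 1).1 - (W 1).1 * (W 0).1) ≤ 1 / 4 * d

end

end Pool.Agent.N957.NH
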