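import Pool.Agent.N957.NH.Stm
import Pool.Agent.N303.KQ.Evs

/-!
# Project NH: assembly of the finite-dimensional part
-/

set_option autoImplicit false

namespace Pool.Agent.N957.NH

open Matrix Finset
open scoped ComplexOrder
open Pool.Agent.W661.RC Pool.Agent.N303.KQ Pool.Agent.W683.RC
open Pool.Agent.H21R2 (IsHyperlinear)

noncomputable section

theorem Irr.mono {k d : ℕ} {u : Fin k → Mt d} {C2 ε ε' : ℝ} (h : Irr u C2 ε) (he : ε ≤ ε') :
    Irr u C2 ε' := by
  intro x hx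
  obtain ⟨m, hm⟩ := h x hx
  exact ⟨m, hm.trans (by
    have := mul_le_mul_of_nonneg_right he (Nat.cast_nonneg (α := ℝ) d)
    linarith)⟩

theorem Near.mono {d : ℕ} {O : Out d} {V : Mt d} {p : O.I → Mt d} {ε ε' : ℝ} (h : Near O V p ε)
    (he : ε ≤ ε') : Near O V p ε' :=
  ⟨h.un, h.mem, h.proj, h.near.trans (mul_le_mul_of_nonneg_right he (Nat.cast_nonneg _))⟩

/-- the linear map `a ↦ V a V*` -/
def cjL {d : ℕ} (V : Mt d) : Mt d →ₗ[ℂ] Mt d where
  toFun a := V * a * Vᴴ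
  map_add' a b := by rw [Matrix.mul_add, Matrix.add_mul]
  map_smul' c a := by
    rw [RingHom.id_apply, Matrix.mul_smul, Matrix.smul_mul]

/-- the linear projection onto the block algebra -/
def prL {d : ℕ} (O : Out d) : Mt d →ₗ[ℂ] Mt d where
  toFun a := Pool.Agent.N303.KQ.JJ (Jb O) (kp (Jb O) a)
  map_add' a b := by rw [kp_add, JJ_add]
  map_smul' c a := by
    rw [RingHom.id_apply, Pool.Agent.N303.KQ.JJ, Pool.Agent.N303.KQ.JJ, Finset.smul_sum]
    refine sum_congr rfl fun y _ => ?_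
    rw [kp, kp, ip_smul_right, mul_smul]

theorem near_of_nearInv (hAVG : S_AVG) (hPROJ : S_PROJ) {d : ℕ} {O : Out d} {V : Mt d} {ε : ℝ}
    (hV : Vᴴ * V = 1) (h : NearInv O V ε) : ∃ p, Near O V p (4 * ε) := by
  have h1 := hAVG d O ((LinearMap.id - prL O).comp (cjL V)) (ε * d) (by
    intro a ha ha1
    obtain ⟨b, hb, hb2⟩ := h a ha ha1
    exact (hs_sub_kp_le (x := V * a * Vᴴ) hb).trans hb2)
  have h2 : ∀ i, ∃ p ∈ O.alg, IsPr p ∧ hs (V * pr O i * Vᴴ - p) ≤
      4 * hs (V * pr O i * Vᴴ - prL O (V * pr O i * Vᴴ)) := by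
    intro i
    refine hPROJ d O _ _ (JJ_mem _) ?_
    have h3 := pr_isPr (O := O) i
    refine ⟨?_, ?_⟩
    · rw [Matrix.conjTranspose_mul, Matrix.conjTranspose_mul, Matrix.conjTranspose_conjTranspose,
        h3.1, Matrix.mul_assoc]
    · calc V * pr O i * Vᴴ * (V * pr O i * Vᴴ) = V * pr O i * (Vᴴ * V) * pr O i * Vᴴ := by
            simp only [Matrix.mul_assoc]
        _ = V * (pr O i * pr O i) * Vᴴ := by rw [hV, Matrix.mul_one, Matrix.mul_assoc V]
        _ = _ := by rw [h3.2]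
  choose p hp1 hp2 hp3 using h2
  refine ⟨p, hV, hp1, hp2, ?_⟩
  refine (sum_le_sum fun i _ => hp3 i).trans ?_
  rw [← mul_sum, mul_assoc]
  exact mul_le_mul_of_nonneg_left h1 (by norm_num)

theorem hs_comm_le {d : ℕ} {a y : Mt d} (ha : Le (aᴴ * a) 1) :
    hs (y * a - a * y) ≤ 4 * hs y := by
  have h1 := hs_sub_le (y * a) (a * y)
  have h2 := hs_mul_le_right ha y
  have h3 := Pool.Agent.W683.RC.hs_mul_le ha y
  linarith

theorem CORE (hAVG : S_AVG) (hPROJ : S_PROJ) (hMONO : S_MONO) (hCONC : S_CONC) (hFIN : S_FIN) :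
    S_CORE := by
  intro k K0 C2 v vh vl hK0 hC2
  obtain ⟨Cf, hCf, hFIN⟩ := hFIN
  set eF : ℝ := 1 / (4 * Cf) with heF
  have heFp : 0 < eF := by rw [heF]; positivity
  obtain ⟨eC, heC, hCONC⟩ := hCONC C2 eF hC2 heFp
  obtain ⟨eM, heM, hMONO⟩ := hMONO 20 (eC / (k + 1)) (by norm_num) (by positivity)
  choose L hL0 hL using fun s t => comm_word (v s t)
  choose Lh hLh0 hLh using fun t => comm_word (vh t)
  choose Ll hLl0 hLl using fun j => comm_word (vl j)
  set M : ℝ := K0 * (∑ s, ∑ t, (2 * L s t + 8)) + K0 * (∑ t, (2 * Lh t + 8)) + K0 * k +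
    (∑ j, (2 * Ll j + 8)) + 1 with hM
  have hM1 : 0 ≤ K0 * (∑ s, ∑ t, (2 * L s t + 8)) :=
    mul_nonneg hK0.le (sum_nonneg fun s _ => sum_nonneg fun t _ => by linarith [hL0 s t])
  have hM2 : 0 ≤ K0 * (∑ t, (2 * Lh t + 8)) :=
    mul_nonneg hK0.le (sum_nonneg fun t _ => by linarith [hLh0 t])
  have hM3 : 0 ≤ K0 * k := by positivity
  have hM4 : 0 ≤ ∑ j, (2 * Ll j + 8) := sum_nonneg fun t _ => by linarith [hLl0 t]
  have hMp : 1 ≤ M := by rw [hM]; linarith
  set e0 : ℝ := min eF (min eC eM) with he0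
  have he0p : 0 < e0 := lt_min heFp (lt_min heC heM)
  refine ⟨e0 / (4 * M), by positivity, ?_⟩
  intro d U UK H W O hd hO1 hO2 hO3 hIrr hr1 hr2 hr3 hr4
  set ε : ℝ := e0 / (4 * M) with hε
  have hεp : 0 < ε := by rw [hε]; positivity
  have hMε : 4 * (M * ε) = e0 := by rw [hε]; field_simp
  have hd0 : (0 : ℝ) < d := by exact_mod_cast hd
  have hεF : 4 * (M * ε) ≤ eF := by rw [hMε]; exact min_le_left _ _
  have hεC : 4 * (M * ε) ≤ eC := by rw [hMε]; exact (min_le_right _ _).trans (min_le_left _ _)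
  have hεM : 4 * (M * ε) ≤ eM := by rw [hMε]; exact (min_le_right _ _).trans (min_le_right _ _)
  have hε1 : ε ≤ M * ε := by nlinarith
  have hBlk : BlkA (fun s => (UK s).1) K0 ε O := ⟨hO1, hO2, hO3⟩
  have hun : ∀ u : unitaryGroup (Fin d) ℂ, (u.1)ᴴ * u.1 = 1 := un_conj
  -- near invariance for the generators
  have hN1 : ∀ s, NearInv O (U s).1 (M * ε) := by
    intro s
    have h1 := nearInv_of (U := UK) hK0.le hBlk (hun (U s)) (v s) (L s) (hL0 s)
      (fun t x => hL s t d UK x) (η := ε) (fun t => hr1 s t)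
    have h2 : K0 * ∑ t, (2 * L s t * ε + 8 * ε) + ε ≤ M * ε := by
      have e1 : ∑ t, (2 * L s t * ε + 8 * ε) = (∑ t, (2 * L s t + 8)) * ε := by
        rw [sum_mul]; exact sum_congr rfl fun t _ => by ring
      rw [e1]
      have h3 : ∑ t, (2 * L s t + 8) ≤ ∑ s, ∑ t, (2 * L s t + 8) :=
        single_le_sum (f := fun s => ∑ t, (2 * L s t + 8))
          (fun s _ => sum_nonneg fun t _ => by linarith [hL0 s t]) (mem_univ s)
      have h4 := mul_le_mul_of_nonneg_left h3 hK0.le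
      have h5 : (K0 * (∑ t, (2 * L s t + 8)) + 1) * ε ≤ M * ε :=
        mul_le_mul_of_nonneg_right (by rw [hM]; linarith) hεp.le
      linarith
    intro a ha ha1
    obtain ⟨b, hb, hb2⟩ := h1 a ha ha1
    exact ⟨b, hb, hb2.trans (mul_le_mul_of_nonneg_right h2 hd0.le)⟩
  have hN2 : NearInv O H.1 (M * ε) := by
    have h1 := nearInv_of (U := UK) hK0.le hBlk (hun H) vh Lh hLh0
      (fun t x => hLh t d UK x) (η := ε) (fun t => hr2 t)
    have h2 : K0 * ∑ t, (2 * Lh t * ε + 8 * ε) + ε ≤ M * ε := by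
      have e1 : ∑ t, (2 * Lh t * ε + 8 * ε) = (∑ t, (2 * Lh t + 8)) * ε := by
        rw [sum_mul]; exact sum_congr rfl fun t _ => by ring
      rw [e1]
      have h5 : (K0 * (∑ t, (2 * Lh t + 8)) + 1) * ε ≤ M * ε :=
        mul_le_mul_of_nonneg_right (by rw [hM]; linarith) hεp.le
      linarith
    intro a ha ha1
    obtain ⟨b, hb, hb2⟩ := h1 a ha ha1
    exact ⟨b, hb, hb2.trans (mul_le_mul_of_nonneg_right h2 hd0.le)⟩
  -- central functions
  have hsz : (d : ℝ) - D0 O ≤ (4 * (M * ε)) * d :=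
    hO3.trans (mul_le_mul_of_nonneg_right (by nlinarith) hd0.le)
  have hf : ∀ φ, Adm 20 φ → en (fun s => (U s).1) (fc O φ) ≤ eC * d := by
    intro φ hφ
    have h1 : ∀ s, hs ((U s).1 * fc O φ - fc O φ * (U s).1) ≤ eC / (k + 1) * d := by
      intro s
      obtain ⟨p, hp⟩ := near_of_nearInv hAVG hPROJ (hun (U s)) (hN1 s)
      exact hMONO d O (U s).1 p φ hd (hp.mono hεM)
        (hsz.trans (mul_le_mul_of_nonneg_right hεM hd0.le)) hφ
    rw [en]
    refine (sum_le_sum fun s _ => h1 s).trans ?_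
    rw [sum_const, card_univ, Fintype.card_fin, nsmul_eq_mul]
    have h2 : (k : ℝ) * (eC / (k + 1) * d) = (k : ℝ) / (k + 1) * (eC * d) := by
      field_simp
    rw [h2]
    have h3 : (k : ℝ) / (k + 1) ≤ 1 := by
      rw [div_le_one (by positivity)]; linarith
    calc (k : ℝ) / (k + 1) * (eC * d) ≤ 1 * (eC * d) :=
          mul_le_mul_of_nonneg_right h3 (by positivity)
      _ = _ := one_mul _
  obtain ⟨m0, hm0, hm1⟩ := hCONC d k (fun s => (U s).1) O hd
    (hIrr.mono (by nlinarith)) hf (hsz.trans (mul_le_mul_of_nonneg_right hεC hd0.le))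
  -- the two unitaries
  have ha : ∀ j, ∃ a ∈ O.alg, Le (aᴴ * a) 1 ∧ hs ((W j).1 - a) ≤ eF * d := by
    intro j
    obtain ⟨a, ha, ha1, ha2⟩ := hO2 (W j).1 (by rw [hun (W j)]; show (1 - 1 : Mt d).PosSemidef; rw [sub_self]; exact Matrix.PosSemidef.zero)
    refine ⟨a, ha, ha1, ha2.trans ?_⟩
    have h1 : en (fun s => (UK s).1) (W j).1 ≤ k * (ε * d) := by
      rw [en]
      refine (sum_le_sum fun s _ => hr3 j s).trans ?_
      rw [sum_const, card_univ, Fintype.card_fin, nsmul_eq_mul]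
    have h2 := mul_le_mul_of_nonneg_left h1 hK0.le
    have h3 : (K0 * k + 1) * ε ≤ M * ε := mul_le_mul_of_nonneg_right (by rw [hM]; linarith) hεp.le
    have h4 : (K0 * k + 1) * ε ≤ eF := by nlinarith
    have h5 := mul_le_mul_of_nonneg_right h4 hd0.le
    nlinarith
  choose a ha1 ha2 ha3 using ha
  have hc : ∀ j, ∑ i, hs ((W j).1 * (H.1 * pr O i * (H.1)ᴴ) - H.1 * pr O i * (H.1)ᴴ * (W j).1) ≤
      eF * d := by
    intro j
    have h1 := hAVG d O ((LinearMap.mulLeft ℂ (W j).1 - LinearMap.mulRight ℂ (W j).1).comp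
      (cjL H.1)) (eF * d) (by
        intro x hx hx1
        show hs ((W j).1 * (H.1 * x * (H.1)ᴴ) - H.1 * x * (H.1)ᴴ * (W j).1) ≤ eF * d
        set Y : Mt d := (FreeGroup.lift UK (vl j)).1 with hY
        set X : Mt d := (H.1)ᴴ * (W j).1 * H.1 with hX
        have hH2 : H.1 * (H.1)ᴴ = 1 := unit_symm (hun H)
        have e1 : (W j).1 * (H.1 * x * (H.1)ᴴ) - H.1 * x * (H.1)ᴴ * (W j).1 =
            H.1 * (X * x - x * X) * (H.1)ᴴ := by
          rw [Matrix.mul_sub, Matrix.sub_mul, hX]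
          congr 1
          · calc (W j).1 * (H.1 * x * (H.1)ᴴ) = (H.1 * (H.1)ᴴ) * ((W j).1 * (H.1 * x * (H.1)ᴴ)) := by
                  rw [hH2, Matrix.one_mul]
              _ = _ := by simp only [Matrix.mul_assoc]
          · calc H.1 * x * (H.1)ᴴ * (W j).1 = H.1 * x * (H.1)ᴴ * (W j).1 * (H.1 * (H.1)ᴴ) := by
                  rw [hH2, Matrix.mul_one]
              _ = _ := by simp only [Matrix.mul_assoc]
        rw [e1, hs_mul_unit (unit_conj (hun H)), hs_unit_mul (hun H)]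
        have e2 : X * x - x * X = (Y * x - x * Y) + ((X - Y) * x - x * (X - Y)) := by
          rw [Matrix.sub_mul, Matrix.mul_sub]; abel
        have e3 : hs (X - Y) ≤ ε * d := by
          have e4 : X - Y = (H.1)ᴴ * ((W j).1 * H.1 - H.1 * Y) := by
            rw [Matrix.mul_sub, ← Matrix.mul_assoc, ← Matrix.mul_assoc, hun H, Matrix.one_mul]
          rw [e4, hs_unit_mul (unit_conj (hun H))]
          exact hr4 j
        have h2 := hLl j d UK x
        have h3 := hO1 x hx hx1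
        have h4 := mul_le_mul_of_nonneg_left h3 (hLl0 j)
        have h5 := hs_comm_le (y := X - Y) hx1
        have h6 := Pool.Agent.W683.RC.hs_add_le (Y * x - x * Y) ((X - Y) * x - x * (X - Y))
        rw [← e2] at h6
        have h7 : (2 * Ll j + 8) * ε ≤ M * ε := by
          refine mul_le_mul_of_nonneg_right ?_ hεp.le
          have h8 : 2 * Ll j + 8 ≤ ∑ j, (2 * Ll j + 8) :=
            single_le_sum (f := fun j => 2 * Ll j + 8) (fun i _ => by linarith [hLl0 i])
              (mem_univ j)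
          rw [hM]; linarith
        have h9 : (2 * Ll j + 8) * ε ≤ eF := by nlinarith
        have h10 := mul_le_mul_of_nonneg_right h9 hd0.le
        nlinarith)
    exact h1
  obtain ⟨p, hp⟩ := near_of_nearInv hAVG hPROJ (hun H) hN2
  have h := hFIN d O H.1 p (fun j => (W j).1) a m0 eF hd hm0 heFp.le (hp.mono hεF)
    (fun j => hun (W j)) (hsz.trans (mul_le_mul_of_nonneg_right hεF hd0.le)) ha1 ha2 ha3 hc hm1
  refine h.trans ?_
  have h2 : Cf * eF = 1 / 4 := by rw [heF]; field_simp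
  rw [h2]

end

end Pool.Agent.N957.NH
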